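import Mathlib

/-! The Padovan lattice: the real root `t` of `t ^ 3 = t + 1`, linear forms and norm form. -/

set_option autoImplicit false

namespace Pool.Agent.R356.Gold

/-- The Padovan numbers (coefficient of `t ^ 2` in `t ^ k`). -/
def P : ℕ → ℤ
  | 0 => 0
  | 1 => 0
  | 2 => 1
  | (n + 3) => P (n + 1) + P n

theorem P_rec (n : ℕ) : P (n + 3) = P (n + 1) + P n := by rw [P]

/-- first error -/
noncomputable def e1 (t : ℝ) (x y : ℤ) : ℝ := x * t - y

/-- second error -/
noncomputable def e2 (t : ℝ) (x z : ℤ) : ℝ := x * t ^ 2 - z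

/-- real embedding -/
noncomputable def al (t : ℝ) (x y z : ℤ) : ℝ := x * (t ^ 2 - 1) + y * t + z

/-- the quadratic form -/
noncomputable def q (t : ℝ) (a c : ℝ) : ℝ := (t ^ 2 - 1) * a ^ 2 - t * a * c + c ^ 2

/-- the norm form -/
def Nm (x y z : ℤ) : ℤ :=
  x ^ 3 + y ^ 3 + z ^ 3 - y ^ 2 * z - x * z ^ 2 - 3 * x * y * z + x * y ^ 2 + 2 * x ^ 2 * y

/-- first error of the `k`-th unit -/
noncomputable def a (t : ℝ) (k : ℕ) : ℝ := e1 t (P k) (P (k + 1))

/-- second error of the `k`-th unit -/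
noncomputable def c (t : ℝ) (k : ℕ) : ℝ := e2 t (P k) (P (k + 2))

section
variable {t : ℝ} (ht : t ^ 3 = t + 1)
include ht

theorem t_lo : 1.32471 < t := by
  by_contra h
  push Not at h
  have h1 : 0 ≤ (1.32471 - t) := by linarith
  have h2 : 0 < t := by
    by_contra h0
    push Not at h0
    nlinarith [sq_nonneg (t + 1), sq_nonneg t, sq_nonneg (t ^ 2 - 1), mul_nonneg (neg_nonneg.2 h0) (sq_nonneg (t + 1)), sq_nonneg (t + 1 / 2)]
  nlinarith [mul_nonneg h1 h2.le, mul_nonneg h1 (sq_nonneg t), mul_nonneg h1 (mul_nonneg h1 h2.le)]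

theorem t_pos : 0 < t := lt_trans (by norm_num) (t_lo ht)

theorem t_hi : t < 1.32472 := by
  by_contra h
  push Not at h
  nlinarith [sq_nonneg (t - 1), mul_nonneg (sub_nonneg.2 h) (sq_nonneg t), mul_nonneg (sub_nonneg.2 h) (t_pos ht).le]

theorem tt : t * (t ^ 2 - 1) = 1 := by linear_combination ht

theorem t4 : t ^ 4 = t ^ 2 + t := by linear_combination t * ht

theorem t5 : t ^ 5 = t ^ 2 + t + 1 := by linear_combination (t ^ 2 + 1) * ht

theorem t6 : t ^ 6 = t ^ 2 + 2 * t + 1 := by linear_combination (t ^ 3 + t + 1) * ht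

theorem sq_lo : 1.75485 < t ^ 2 := by nlinarith [t_lo ht, t_hi ht]

theorem sq_hi : t ^ 2 < 1.75489 := by nlinarith [t_lo ht, t_hi ht]

theorem norm_eq (x y z : ℤ) : (Nm x y z : ℝ) = al t x y z * q t (e1 t x y) (e2 t x z) := by
  unfold Nm al q e1 e2
  push_cast
  linear_combination (3 * (x : ℝ) * y * z - 2 * (x : ℝ) ^ 2 * y
    - (x : ℝ) ^ 3 * (t ^ 3 - t + 1) - (y : ℝ) ^ 3) * ht

omit ht in
theorem a_succ (k : ℕ) : a t (k + 1) = c t k - t * a t k := by
  unfold a c e1 e2
  ring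

theorem c_succ (k : ℕ) : c t (k + 1) = -(t ^ 2 - 1) * a t k := by
  unfold a c e1 e2
  rw [show k + 1 + 2 = k + 3 by ring, P_rec k]
  push_cast
  linear_combination (P k : ℝ) * ht

theorem al_unit (k : ℕ) : al t (P k) (P (k + 1)) (P (k + 2)) = t ^ k := by
  induction k with
  | zero => simp [al, P]
  | succ k ih =>
    unfold al at *
    have h1 : t ^ (k + 1) = t ^ k * t := pow_succ _ _
    rw [show k + 1 + 1 = k + 2 by ring, show k + 1 + 2 = k + 3 by ring, P_rec k, h1, ← ih]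
    push_cast
    linear_combination (-(P k : ℝ)) * ht

theorem q_succ (u w : ℝ) : t * q t (w - t * u) (-(t ^ 2 - 1) * u) = q t u w := by
  unfold q
  linear_combination ((t ^ 2 - 1) * u ^ 2 - t * u * w + w ^ 2) * ht

theorem q_unit (k : ℕ) : t ^ k * q t (a t k) (c t k) = 1 := by
  induction k with
  | zero => simp [q, a, c, e1, e2, P]
  | succ k ih =>
    rw [a_succ, c_succ ht, pow_succ, mul_assoc, q_succ ht, ih]

omit ht in
/-- coordinates in the basis of units at level `k` -/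
theorem dec (k : ℕ) (x y z : ℤ) : ∃ x' y' z' : ℤ,
    x = x' * P k + y' * P (k + 2) + z' * P (k + 1) ∧
    y = x' * P (k + 1) + y' * P (k + 3) + z' * P (k + 2) ∧
    z = x' * P (k + 2) + y' * P (k + 4) + z' * P (k + 3) ∧ Nm x' y' z' = Nm x y z := by
  induction k with
  | zero =>
    refine ⟨z - x, x, y, ?_, ?_, ?_, ?_⟩
    · simp [P]
    · simp [P]
    · simp [P]
    · unfold Nm; ring
  | succ k ih =>
    obtain ⟨x', y', z', h1, h2, h3, h4⟩ := ih
    refine ⟨z' - x', x', y', ?_, ?_, ?_, ?_⟩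
    · rw [h1]
      rw [show k + 1 + 2 = k + 3 by ring, show k + 1 + 1 = k + 2 by ring, P_rec k]
      ring
    · rw [h2]
      rw [show k + 1 + 3 = (k + 1) + 3 by ring, P_rec (k + 1), show k + 1 + 1 = k + 2 by ring,
        show k + 1 + 2 = k + 3 by ring]
      ring
    · rw [h3]
      rw [show k + 1 + 4 = (k + 2) + 3 by ring, P_rec (k + 2), show k + 1 + 2 = k + 3 by ring,
        show k + 1 + 3 = k + 4 by ring, show k + 2 + 1 = k + 3 by ring]
      ring
    · rw [← h4]; unfold Nm; ring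

end

end Pool.Agent.R356.Gold
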