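import Mathlib
import Pool.Agent.R356.Gold.Base

/-! Elements of small norm. -/

set_option autoImplicit false

namespace Pool.Agent.R356.Gold

/-- the list of small elements -/
def Small (x y z : ℤ) : Prop :=
  (x = 0 ∧ y = 0 ∧ z = 1) ∨ (x = 0 ∧ y = 1 ∧ z = 0) ∨ (x = 2 ∧ y = -1 ∧ z = 1) ∨
  (x = 1 ∧ y = 1 ∧ z = -1) ∨ (x = -2 ∧ y = 2 ∧ z = 0) ∨ (x = -1 ∧ y = 0 ∧ z = 2)

instance (x y z : ℤ) : Decidable (Small x y z) := by unfold Small; infer_instance

theorem cls_dec : ∀ x ∈ Finset.Icc (-2 : ℤ) 3, ∀ y ∈ Finset.Icc (-8 : ℤ) 10,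
    ∀ z ∈ Finset.Icc (-14 : ℤ) 13, 9990 < 7549 * x + 13247 * y + 10000 * z →
    7549 * x + 13247 * y + 10000 * z < 13260 → Nm x y z ≤ 12 → Small x y z := by
  decide +kernel

theorem cls {t : ℝ} (ht : t ^ 3 = t + 1) {x y z : ℤ} (h1 : 1 ≤ al t x y z) (h2 : al t x y z < t)
    (h3 : Nm x y z ≤ 12) : Small x y z := by
  have l1 := t_lo ht
  have l2 := t_hi ht
  have s1 := sq_lo ht
  have s2 := sq_hi ht
  set A := e1 t x y with hA
  set C := e2 t x z with hC
  have hN : al t x y z * q t A C ≤ 12 := by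
    rw [← norm_eq ht]; exact_mod_cast h3
  have hq0 : 0 ≤ q t A C := by
    unfold q
    nlinarith [sq_nonneg (C - t * A / 2), mul_nonneg (by linarith : (0:ℝ) ≤ 3 * t ^ 2 / 4 - 1) (sq_nonneg A)]
  have hq : q t A C ≤ 12 := by nlinarith
  have hx : (x : ℝ) * (3 * t ^ 2 - 1) = al t x y z + (t * A + C) := by
    rw [hA, hC]; unfold al e1 e2; ring
  have h4 : (t * A + C) ^ 2 ≤ 168 := by
    have : (t * A + C) ^ 2 ≤ 14 * q t A C := by
      unfold q
      nlinarith [sq_nonneg (13 * C - 8 * t * A),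
        mul_nonneg (by linarith : (0:ℝ) ≤ 105 * t ^ 2 - 182) (sq_nonneg A)]
    linarith
  have h5 : -13 < t * A + C := by nlinarith
  have h6 : t * A + C < 13 := by nlinarith
  have hA2 : A ^ 2 < 6.17 ^ 2 := by
    have : (3 * t ^ 2 / 4 - 1) * A ^ 2 ≤ 12 := by
      refine le_trans ?_ hq
      unfold q
      nlinarith [sq_nonneg (C - t * A / 2)]
    nlinarith [sq_nonneg A]
  have hA3 : -6.17 < A := by nlinarith
  have hA4 : A < 6.17 := by nlinarith
  have x1 : (-3 : ℝ) < x := by nlinarith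
  have x2 : (x : ℝ) < 4 := by nlinarith
  have x1' : -3 < x := by exact_mod_cast x1
  have x2' : x < 4 := by exact_mod_cast x2
  have x3 : (-2 : ℝ) ≤ x := by exact_mod_cast (by omega : -2 ≤ x)
  have x4 : (x : ℝ) ≤ 3 := by exact_mod_cast (by omega : x ≤ 3)
  have hy : (y : ℝ) = x * t - A := by rw [hA]; unfold e1; ring
  have y1 : (-9 : ℝ) < y := by rw [hy]; nlinarith
  have y2 : (y : ℝ) < 11 := by rw [hy]; nlinarith
  have y1' : -9 < y := by exact_mod_cast y1
  have y2' : y < 11 := by exact_mod_cast y2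
  have y3 : (-8 : ℝ) ≤ y := by exact_mod_cast (by omega : -8 ≤ y)
  have y4 : (y : ℝ) ≤ 10 := by exact_mod_cast (by omega : y ≤ 10)
  have hz : (z : ℝ) = al t x y z - x * (t ^ 2 - 1) - y * t := by unfold al; ring
  have z1 : (-15 : ℝ) < z := by rw [hz]; nlinarith
  have z2 : (z : ℝ) < 14 := by rw [hz]; nlinarith
  have z1' : -15 < z := by exact_mod_cast z1
  have z2' : z < 14 := by exact_mod_cast z2
  have b1 : |(x : ℝ) * (t ^ 2 - 1.7549)| ≤ 3 * 0.00005 := by
    rw [abs_mul]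
    apply mul_le_mul _ _ (abs_nonneg _) (by norm_num)
    · rw [abs_le]; constructor <;> linarith
    · rw [abs_le]; constructor <;> linarith
  have b2 : |(y : ℝ) * (t - 1.3247)| ≤ 10 * 0.00002 := by
    rw [abs_mul]
    apply mul_le_mul _ _ (abs_nonneg _) (by norm_num)
    · rw [abs_le]; constructor <;> linarith
    · rw [abs_le]; constructor <;> linarith
  rw [abs_le] at b1 b2
  have c1 : (9990 : ℝ) < 7549 * x + 13247 * y + 10000 * z := by
    rw [hz]; nlinarith [b1.1, b1.2, b2.1, b2.2]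
  have c2 : 7549 * (x : ℝ) + 13247 * y + 10000 * z < 13260 := by
    rw [hz]; nlinarith [b1.1, b1.2, b2.1, b2.2]
  exact cls_dec x (by rw [Finset.mem_Icc]; omega) y (by rw [Finset.mem_Icc]; omega) z
    (by rw [Finset.mem_Icc]; omega) (by exact_mod_cast c1) (by exact_mod_cast c2) h3

end Pool.Agent.R356.Gold
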