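import Mathlib
import Pool.Agent.R356.Gold.Cls

/-! Comparison functions, and the reduction to units. -/

set_option autoImplicit false

namespace Pool.Agent.R356.Gold

/-- the double cone of record directions -/
def U (s u w : ℝ) : Prop := u * w < 0 ∨ s * |u| < |w|

/-- properties of the comparison function -/
structure Good (t s : ℝ) (F : ℝ → ℝ → ℝ) : Prop where
  neg : ∀ u w, F (-u) (-w) = F u w
  small : ∃ δ > 0, ∀ u w, F u w ≤ δ → |u| < 1 ∧ |w| < 1 ∧ |t * u + w| ≤ 2
  qsmall : ∀ η > 0, ∃ δ > 0, ∀ u w, F u w ≤ δ → q t u w ≤ η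
  tend : ∀ ε > 0, ∃ η > 0, ∀ u w, q t u w ≤ η → F u w ≤ ε
  big : ∀ u w u' w', (u ≠ 0 ∨ w ≠ 0) → 13 * q t u w ≤ t * q t u' w' → F u w < F u' w'
  g5 : ∀ u w, (u ≠ 0 ∨ w ≠ 0) → F u w < F (-t * u + (1 - t) * w) ((2 - t ^ 2) * u - t ^ 2 * w)
  g7 : ∀ u w, (u ≠ 0 ∨ w ≠ 0) → F u w < F (-(1 + t) * u + (1 - t) * w)
    ((2 - t ^ 2) * u - (1 + t ^ 2) * w)
  g8 : ∀ u w, (u ≠ 0 ∨ w ≠ 0) → F u w < F (2 * u) (2 * w)
  g11 : ∀ u w, (u ≠ 0 ∨ w ≠ 0) → F u w < F (2 * u + t * w) (-u + (2 + t ^ 2) * w)
  rc : ∀ u w, u ≠ 0 → (U s u w ↔ F u w < F (-t * w) (u - t ^ 2 * w) ∧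
    F u w < F (-t * u + t ^ 3 * w) (-t ^ 2 * u + t ^ 2 * w) ∧
    F u w < F (t ^ 3 * (u - w)) (t ^ 2 * u - (t ^ 2 - 1) * w) ∧
    F u w < F (w - t ^ 3 * u) (-(t ^ 2 - 1) * u - w))
  four : ∀ u w, F ((1 - t) * (u + w)) ((2 - t ^ 2) * u - (t ^ 2 - 1) * w) ≤ F u w

section
variable {t : ℝ} (ht : t ^ 3 = t + 1)
include ht

theorem ne_zero (k : ℕ) : a t k ≠ 0 ∨ c t k ≠ 0 := by
  by_contra h
  push Not at h
  have := q_unit ht k
  rw [h.1, h.2] at this
  simp [q] at this

/-- inverse step -/
theorem a_pred (k : ℕ) : a t k = -t * c t (k + 1) := by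
  rw [c_succ ht]
  linear_combination (-(a t k)) * ht

theorem c_pred (k : ℕ) : c t k = a t (k + 1) - t ^ 2 * c t (k + 1) := by
  rw [a_succ, c_succ ht]
  linear_combination (-(t * a t k)) * ht

/-- linear relations -/
theorem al_dec (k : ℕ) (x' y' z' : ℤ) :
    al t (x' * P k + y' * P (k + 2) + z' * P (k + 1))
      (x' * P (k + 1) + y' * P (k + 3) + z' * P (k + 2))
      (x' * P (k + 2) + y' * P (k + 4) + z' * P (k + 3)) = t ^ (k + 1) * al t x' y' z' := by
  have h0 := al_unit ht k
  have h1 := al_unit ht (k + 1)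
  have h2 := al_unit ht (k + 2)
  rw [show k + 1 + 1 = k + 2 by ring, show k + 1 + 2 = k + 3 by ring] at h1
  rw [show k + 2 + 1 = k + 3 by ring, show k + 2 + 2 = k + 4 by ring] at h2
  unfold al at *
  push_cast
  have h3 : t ^ (k + 2) = t ^ (k + 1) * t := pow_succ _ _
  have h4 : t ^ k = t ^ (k + 1) * (t ^ 2 - 1) := by
    rw [pow_succ]
    linear_combination (-(t ^ k)) * ht
  linear_combination (x' : ℝ) * h0 + (y' : ℝ) * h2 + (z' : ℝ) * h1 + (x' : ℝ) * h4 + (y' : ℝ) * h3

omit ht in
theorem e1_dec (k : ℕ) (x' y' z' : ℤ) :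
    e1 t (x' * P k + y' * P (k + 2) + z' * P (k + 1))
      (x' * P (k + 1) + y' * P (k + 3) + z' * P (k + 2)) =
    x' * a t k + y' * a t (k + 2) + z' * a t (k + 1) := by
  unfold a e1
  rw [show k + 1 + 1 = k + 2 by ring, show k + 2 + 1 = k + 3 by ring]
  push_cast
  ring

omit ht in
theorem e2_dec (k : ℕ) (x' y' z' : ℤ) :
    e2 t (x' * P k + y' * P (k + 2) + z' * P (k + 1))
      (x' * P (k + 2) + y' * P (k + 4) + z' * P (k + 3)) =
    x' * c t k + y' * c t (k + 2) + z' * c t (k + 1) := by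
  unfold c e2
  rw [show k + 2 + 2 = k + 4 by ring, show k + 1 + 2 = k + 3 by ring]
  push_cast
  ring

/-- every vector which is not a unit is beaten by a unit -/
theorem beat {s : ℝ} {F : ℝ → ℝ → ℝ} (hF : Good t s F) {x y z : ℤ} (hα : t ^ 3 ≤ al t x y z) :
    (∃ m, x = P m ∧ y = P (m + 1) ∧ z = P (m + 2)) ∨
    ∃ m, t ^ m ≤ al t x y z ∧ F (a t m) (c t m) < F (e1 t x y) (e2 t x z) := by
  have l1 := t_lo ht
  have t0 := t_pos ht
  have t1 : 1 < t := by linarith
  obtain ⟨K, hK1, hK2⟩ := exists_nat_pow_near (x := al t x y z) (y := t)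
    (le_trans (one_le_pow₀ t1.le) hα) t1
  have hK3 : 3 ≤ K := by
    by_contra h
    push Not at h
    have : t ^ (K + 1) ≤ t ^ 3 := pow_le_pow_right₀ t1.le (by omega)
    linarith
  obtain ⟨j, rfl⟩ : ∃ j, K = j + 2 := ⟨K - 2, by omega⟩
  obtain ⟨x', y', z', h1, h2, h3, h4⟩ := dec (j + 1) x y z
  have hal : al t x y z = t ^ (j + 2) * al t x' y' z' := by
    rw [h1, h2, h3]; exact al_dec ht (j + 1) x' y' z'
  have he1 : e1 t x y = x' * a t (j + 1) + y' * a t (j + 3) + z' * a t (j + 2) := by
    rw [h1, h2]; exact e1_dec (j + 1) x' y' z'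
  have he2 : e2 t x z = x' * c t (j + 1) + y' * c t (j + 3) + z' * c t (j + 2) := by
    rw [h1, h3]; exact e2_dec (j + 1) x' y' z'
  have tp : 0 < t ^ (j + 2) := by positivity
  have hb1 : 1 ≤ al t x' y' z' := by
    by_contra h
    push Not at h
    have : t ^ (j + 2) * al t x' y' z' < t ^ (j + 2) * 1 := mul_lt_mul_of_pos_left h tp
    linarith
  have hb2 : al t x' y' z' < t := by
    by_contra h
    push Not at h
    have : t ^ (j + 2) * t ≤ t ^ (j + 2) * al t x' y' z' := mul_le_mul_of_nonneg_left h tp.le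
    rw [← pow_succ] at this
    linarith
  by_cases hN : Nm x y z ≤ 12
  · rw [← h4] at hN
    rcases cls ht hb1 hb2 hN with h | h | h | h | h | h
    · left
      refine ⟨j + 2, ?_, ?_, ?_⟩
      · rw [h1, h.1, h.2.1, h.2.2]; ring
      · rw [h2, h.1, h.2.1, h.2.2]; ring
      · rw [h3, h.1, h.2.1, h.2.2]; ring
    · left
      refine ⟨j + 3, ?_, ?_, ?_⟩
      · rw [h1, h.1, h.2.1, h.2.2]; ring
      · rw [h2, h.1, h.2.1, h.2.2]; ring
      · rw [h3, h.1, h.2.1, h.2.2]; ring
    · right
      refine ⟨j, le_trans (pow_le_pow_right₀ t1.le (by omega)) hK1, ?_⟩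
      have := hF.g5 (a t j) (c t j) (ne_zero ht j)
      convert this using 1
      congr 1
      · rw [he1, h.1, h.2.1, h.2.2, show j + 3 = j + 1 + 1 + 1 by ring,
          show j + 2 = j + 1 + 1 by ring]
        simp only [a_succ, c_succ ht]
        push_cast
        linear_combination (-a t j) * ht
      · rw [he2, h.1, h.2.1, h.2.2, show j + 3 = j + 1 + 1 + 1 by ring,
          show j + 2 = j + 1 + 1 by ring]
        simp only [a_succ, c_succ ht]
        push_cast
        linear_combination (a t j - c t j) * ht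
    · right
      refine ⟨j + 2, hK1, ?_⟩
      have := hF.g7 (a t (j + 2)) (c t (j + 2)) (ne_zero ht _)
      convert this using 1
      congr 1
      · rw [he1, h.1, h.2.1, h.2.2, show j + 3 = j + 2 + 1 by ring,
          show j + 2 = j + 1 + 1 by ring, a_pred ht (j + 1), a_succ (j + 1 + 1)]
        push_cast
        ring
      · rw [he2, h.1, h.2.1, h.2.2, show j + 3 = j + 2 + 1 by ring,
          show j + 2 = j + 1 + 1 by ring, c_pred ht (j + 1), c_succ ht (j + 1 + 1)]
        push_cast
        ring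
    · right
      refine ⟨j, le_trans (pow_le_pow_right₀ t1.le (by omega)) hK1, ?_⟩
      have := hF.g8 (a t j) (c t j) (ne_zero ht j)
      convert this using 1
      congr 1
      · rw [he1, h.1, h.2.1, h.2.2, show j + 3 = j + 1 + 1 + 1 by ring,
          show j + 2 = j + 1 + 1 by ring]
        simp only [a_succ, c_succ ht]
        push_cast
        linear_combination (2 * a t j) * ht
      · rw [he2, h.1, h.2.1, h.2.2, show j + 3 = j + 1 + 1 + 1 by ring,
          show j + 2 = j + 1 + 1 by ring]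
        simp only [a_succ, c_succ ht]
        push_cast
        linear_combination (2 * c t j) * ht
    · right
      refine ⟨j + 2, hK1, ?_⟩
      have := hF.g11 (a t (j + 2)) (c t (j + 2)) (ne_zero ht _)
      convert this using 1
      congr 1
      · rw [he1, h.1, h.2.1, h.2.2, show j + 2 = j + 1 + 1 by ring, a_pred ht (j + 1)]
        push_cast
        ring
      · rw [he2, h.1, h.2.1, h.2.2, show j + 2 = j + 1 + 1 by ring, c_pred ht (j + 1)]
        push_cast
        ring
  · right
    refine ⟨j + 2, hK1, hF.big _ _ _ _ (ne_zero ht _) ?_⟩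
    push Not at hN
    have hN2 : (13 : ℝ) ≤ Nm x y z := by exact_mod_cast (by omega : 13 ≤ Nm x y z)
    rw [norm_eq ht] at hN2
    have hq1 := q_unit ht (j + 2)
    have hap : 0 < al t x y z := lt_of_lt_of_le tp hK1
    have hqp : 0 ≤ q t (e1 t x y) (e2 t x z) := by
      by_contra h
      push Not at h
      nlinarith
    have h5 : 13 ≤ t ^ (j + 2 + 1) * q t (e1 t x y) (e2 t x z) :=
      hN2.trans (mul_le_mul_of_nonneg_right hK2.le hqp)
    have h6 : t ^ (j + 2) * (13 * q t (a t (j + 2)) (c t (j + 2))) ≤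
        t ^ (j + 2) * (t * q t (e1 t x y) (e2 t x z)) := by
      rw [pow_succ] at h5
      nlinarith
    exact le_of_mul_le_mul_left h6 tp

/-- records among units -/
theorem record {s : ℝ} {F : ℝ → ℝ → ℝ} (hF : Good t s F) {k : ℕ} (hk0 : a t k ≠ 0)
    (hk : U s (a t k) (c t k)) : ∀ i < k, F (a t k) (c t k) < F (a t i) (c t i) := by
  have h0 := (hF.rc _ _ hk0).1 hk
  have key : ∀ d i : ℕ, 1 ≤ d → i + d = k → F (a t k) (c t k) < F (a t i) (c t i) := by
    intro d
    induction d using Nat.strong_induction_on with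
    | _ d ih =>
      intro i hd hi
      by_cases h4 : d ≤ 4
      · interval_cases d
        · have e1 := a_pred ht i
          have e2 := c_pred ht i
          rw [hi] at e1 e2
          rw [e1, e2]; exact h0.1
        · have e1 := a_pred ht i
          have e2 := c_pred ht i
          rw [a_pred ht (i + 1), c_pred ht (i + 1), show i + 1 + 1 = k from hi] at e2
          rw [c_pred ht (i + 1), show i + 1 + 1 = k from hi] at e1
          have := h0.2.1
          rw [e1, e2]
          convert this using 2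
          · ring
          · linear_combination (t * c t k) * ht
        · have e1 := a_pred ht i
          have e2 := c_pred ht i
          rw [a_pred ht (i + 1), c_pred ht (i + 1), a_pred ht (i + 1 + 1), c_pred ht (i + 1 + 1),
            show i + 1 + 1 + 1 = k from hi] at e2
          rw [c_pred ht (i + 1), a_pred ht (i + 1 + 1), c_pred ht (i + 1 + 1),
            show i + 1 + 1 + 1 = k from hi] at e1
          have := h0.2.2.1
          rw [e1, e2]
          convert this using 2
          · linear_combination (-(t ^ 2 * c t k)) * ht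
          · linear_combination (t * a t k + (-t ^ 3 - t + 1) * c t k) * ht
        · have e1 := a_pred ht i
          have e2 := c_pred ht i
          rw [a_pred ht (i + 1), c_pred ht (i + 1), a_pred ht (i + 1 + 1), c_pred ht (i + 1 + 1),
            a_pred ht (i + 1 + 1 + 1), c_pred ht (i + 1 + 1 + 1),
            show i + 1 + 1 + 1 + 1 = k from hi] at e2
          rw [c_pred ht (i + 1), a_pred ht (i + 1 + 1), c_pred ht (i + 1 + 1),
            a_pred ht (i + 1 + 1 + 1), c_pred ht (i + 1 + 1 + 1),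
            show i + 1 + 1 + 1 + 1 = k from hi] at e1
          have := h0.2.2.2
          rw [e1, e2]
          convert this using 2
          · linear_combination (-t ^ 2 * a t k + (t ^ 4 + t ^ 2 - t + 1) * c t k) * ht
          · linear_combination ((-t ^ 3 - t + 1) * a t k +
              (t ^ 5 + t ^ 3 - 2 * t ^ 2 + t - 1) * c t k) * ht
      · have h1 := ih (d - 4) (by omega) (i + 4) (by omega) (by omega)
        have h2 := hF.four (a t i) (c t i)
        have ha4 : a t (i + 1 + 1 + 1 + 1) = (1 - t) * (a t i + c t i) := by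
          simp only [a_succ, c_succ ht]
          linear_combination (-t * a t i + c t i) * ht
        have hc4 : c t (i + 1 + 1 + 1 + 1) = (2 - t ^ 2) * a t i - (t ^ 2 - 1) * c t i := by
          simp only [a_succ, c_succ ht]
          linear_combination ((2 - t ^ 2) * a t i) * ht
        rw [show i + 4 = i + 1 + 1 + 1 + 1 by ring, ha4, hc4] at h1
        exact lt_of_lt_of_le h1 h2
  intro i hi
  exact key (k - i) i (by omega) (by omega)

/-- the converse -/
theorem record_conv {s : ℝ} {F : ℝ → ℝ → ℝ} (hF : Good t s F) {k : ℕ} (hk0 : a t (k + 4) ≠ 0)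
    (h : ∀ i < k + 4, F (a t (k + 4)) (c t (k + 4)) < F (a t i) (c t i)) :
    U s (a t (k + 4)) (c t (k + 4)) := by
  have p1 := a_pred ht (k + 3)
  have p2 := c_pred ht (k + 3)
  have p3 := a_pred ht (k + 2)
  have p4 := c_pred ht (k + 2)
  have p5 := a_pred ht (k + 1)
  have p6 := c_pred ht (k + 1)
  have p7 := a_pred ht k
  have p8 := c_pred ht k
  rw [show k + 3 + 1 = k + 4 by ring] at p1 p2
  rw [show k + 2 + 1 = k + 3 by ring, p2] at p3 p4
  rw [p1] at p4
  rw [show k + 1 + 1 = k + 2 by ring, p4] at p5 p6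
  rw [p3] at p6
  rw [p6] at p7 p8
  rw [p5] at p8
  refine (hF.rc _ _ hk0).2 ⟨?_, ?_, ?_, ?_⟩
  · have := h (k + 3) (by omega)
    rwa [p1, p2] at this
  · have := h (k + 2) (by omega)
    rw [p3, p4] at this
    convert this using 2
    · ring
    · linear_combination (-(t * c t (k + 4))) * ht
  · have := h (k + 1) (by omega)
    rw [p5, p6] at this
    convert this using 2
    · linear_combination (t ^ 2 * c t (k + 4)) * ht
    · linear_combination (-(t * a t (k + 4) + (-t ^ 3 - t + 1) * c t (k + 4))) * ht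
  · have := h k (by omega)
    rw [p7, p8] at this
    convert this using 2
    · linear_combination (-(-t ^ 2 * a t (k + 4) + (t ^ 4 + t ^ 2 - t + 1) * c t (k + 4))) * ht
    · linear_combination (-((-t ^ 3 - t + 1) * a t (k + 4) +
              (t ^ 5 + t ^ 3 - 2 * t ^ 2 + t - 1) * c t (k + 4))) * ht

end

end Pool.Agent.R356.Gold
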