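import Mathlib
import Pool.Agent.R356.Gold.Good

/-! The Euclidean norm and the sup-norm. -/

set_option autoImplicit false

namespace Pool.Agent.R356.Gold

/-- the threshold for the Euclidean norm -/
noncomputable def sE (t : ℝ) : ℝ := (t ^ 2 + 3 * t + 1 + √(t ^ 2 + 4 * t + 1)) / (3 * t + 1)

section
variable {t : ℝ} (ht : t ^ 3 = t + 1)
include ht

theorem sE_root : (3 * t + 1) * sE t ^ 2 - 2 * (t ^ 2 + 3 * t + 1) * sE t + (2 * t ^ 2 + 3 * t) = 0 := by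
  have l1 := t_lo ht
  have h1 : 0 < 3 * t + 1 := by linarith
  have h2 : √(t ^ 2 + 4 * t + 1) ^ 2 = t ^ 2 + 4 * t + 1 := Real.sq_sqrt (by positivity)
  have h3 : (3 * t + 1) * sE t = t ^ 2 + 3 * t + 1 + √(t ^ 2 + 4 * t + 1) := by
    unfold sE; field_simp
  have h4 : (3 * t + 1) * ((3 * t + 1) * sE t ^ 2 - 2 * (t ^ 2 + 3 * t + 1) * sE t +
      (2 * t ^ 2 + 3 * t)) = 0 := by
    have : (3 * t + 1) * ((3 * t + 1) * sE t ^ 2 - 2 * (t ^ 2 + 3 * t + 1) * sE t +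
      (2 * t ^ 2 + 3 * t)) = ((3 * t + 1) * sE t) ^ 2 - 2 * (t ^ 2 + 3 * t + 1) * ((3 * t + 1) * sE t) +
      (3 * t + 1) * (2 * t ^ 2 + 3 * t) := by ring
    rw [this, h3]
    linear_combination h2 + (-t) * ht
  rcases mul_eq_zero.1 h4 with h | h
  · exact absurd h h1.ne'
  · exact h

theorem sE_lo : 1.9 < sE t := by
  have l1 := t_lo ht
  have l2 := t_hi ht
  have s1 := sq_lo ht
  have s2 := sq_hi ht
  have h1 : 0 < 3 * t + 1 := by linarith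
  have h2 : 2.8 < √(t ^ 2 + 4 * t + 1) := by
    apply Real.lt_sqrt_of_sq_lt
    nlinarith
  unfold sE
  rw [lt_div_iff₀ h1]
  linarith

theorem sE_hi : sE t < 2 := by
  have l1 := t_lo ht
  have l2 := t_hi ht
  have s1 := sq_lo ht
  have s2 := sq_hi ht
  have h1 : 0 < 3 * t + 1 := by linarith
  have h2 : √(t ^ 2 + 4 * t + 1) < 2.9 := by
    rw [Real.sqrt_lt' (by norm_num)]
    nlinarith
  unfold sE
  rw [div_lt_iff₀ h1]
  linarith

omit ht in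
theorem euc_pos {u w : ℝ} (h : u ≠ 0 ∨ w ≠ 0) : 0 < u ^ 2 + w ^ 2 := by
  rcases h with h | h
  · have := sq_pos_of_pos (abs_pos.2 h)
    rw [sq_abs] at this
    nlinarith [sq_nonneg w]
  · have := sq_pos_of_pos (abs_pos.2 h)
    rw [sq_abs] at this
    nlinarith [sq_nonneg u]

theorem q_ge (u w : ℝ) : 0.2 * (u ^ 2 + w ^ 2) ≤ q t u w := by
  have s1 := sq_lo ht
  have s2 := sq_hi ht
  unfold q
  nlinarith [sq_nonneg (1.6 * w - t * u), sq_nonneg u, sq_nonneg w,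
    mul_nonneg (by linarith : (0 : ℝ) ≤ 2.2 * t ^ 2 - 3.84) (sq_nonneg u)]

theorem q_le (u w : ℝ) : q t u w ≤ 1.56 * (u ^ 2 + w ^ 2) := by
  have s1 := sq_lo ht
  have s2 := sq_hi ht
  unfold q
  nlinarith [sq_nonneg (1.12 * w + t * u), sq_nonneg u, sq_nonneg w,
    mul_nonneg (by linarith : (0 : ℝ) ≤ 5.7344 - 3.24 * t ^ 2) (sq_nonneg u)]

theorem good_euc0 (hrc : ∀ u w : ℝ, u ≠ 0 → (U (sE t) u w ↔
    u ^ 2 + w ^ 2 < (-t * w) ^ 2 + (u - t ^ 2 * w) ^ 2 ∧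
    u ^ 2 + w ^ 2 < (-t * u + t ^ 3 * w) ^ 2 + (-t ^ 2 * u + t ^ 2 * w) ^ 2 ∧
    u ^ 2 + w ^ 2 < (t ^ 3 * (u - w)) ^ 2 + (t ^ 2 * u - (t ^ 2 - 1) * w) ^ 2 ∧
    u ^ 2 + w ^ 2 < (w - t ^ 3 * u) ^ 2 + (-(t ^ 2 - 1) * u - w) ^ 2)) :
    Good t (sE t) (fun u w => u ^ 2 + w ^ 2) := by
  have l1 := t_lo ht
  have l2 := t_hi ht
  have s1 := sq_lo ht
  have s2 := sq_hi ht
  have t0 := t_pos ht
  have h4 := t4 ht
  have h6 := t6 ht
  refine ⟨?_, ?_, ?_, ?_, ?_, ?_, ?_, ?_, ?_, ?_, ?_⟩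
  · intro u w; ring
  · refine ⟨0.5, by norm_num, fun u w h => ⟨?_, ?_, ?_⟩⟩
    · rw [abs_lt]; constructor <;> nlinarith [sq_nonneg u, sq_nonneg w]
    · rw [abs_lt]; constructor <;> nlinarith [sq_nonneg u, sq_nonneg w]
    · apply abs_le_of_sq_le_sq _ (by norm_num)
      nlinarith [sq_nonneg (u - t * w), sq_nonneg u, sq_nonneg w]
  · intro η hη
    refine ⟨η / 2, by positivity, fun u w h => ?_⟩
    have := q_le ht u w
    nlinarith [sq_nonneg u, sq_nonneg w]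
  · intro ε hε
    refine ⟨ε / 5, by positivity, fun u w h => ?_⟩
    have := q_ge ht u w
    show u ^ 2 + w ^ 2 ≤ ε
    linarith
  · intro u w u' w' h0 h
    have p := euc_pos h0
    have h1 := q_ge ht u w
    have h2 := q_le ht u' w'
    show u ^ 2 + w ^ 2 < u' ^ 2 + w' ^ 2
    nlinarith [sq_nonneg u', sq_nonneg w']
  · intro u w h0
    have p := euc_pos h0
    show u ^ 2 + w ^ 2 < _
    have e : (-t * u + (1 - t) * w) ^ 2 + ((2 - t ^ 2) * u - t ^ 2 * w) ^ 2 =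
        (t ^ 2 + (2 - t ^ 2) ^ 2) * u ^ 2 + ((1 - t) ^ 2 + t ^ 4) * w ^ 2 := by
      linear_combination (2 * (t + 1) * u * w - 2 * u * w) * ht
    rw [e]
    nlinarith [sq_nonneg u, sq_nonneg w, mul_nonneg (by nlinarith : (0:ℝ) ≤ t ^ 2 + (2 - t ^ 2) ^ 2 - 1.8) (sq_nonneg u),
      mul_nonneg (by nlinarith : (0:ℝ) ≤ (1 - t) ^ 2 + t ^ 4 - 2) (sq_nonneg w)]
  · intro u w h0
    have p := euc_pos h0
    show u ^ 2 + w ^ 2 < _
    nlinarith [sq_nonneg (u - w), sq_nonneg (u + w), sq_nonneg u, sq_nonneg w,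
      sq_nonneg (-(1 + t) * u + (1 - t) * w), mul_pos t0 p]
  · intro u w h0
    have p := euc_pos h0
    show u ^ 2 + w ^ 2 < _
    nlinarith
  · intro u w h0
    have p := euc_pos h0
    show u ^ 2 + w ^ 2 < _
    nlinarith [sq_nonneg (u - w), sq_nonneg (u + w), sq_nonneg u, sq_nonneg w]
  · exact hrc
  · intro u w
    show _ ≤ u ^ 2 + w ^ 2
    nlinarith [sq_nonneg (u - w), sq_nonneg (u + w), sq_nonneg u, sq_nonneg w]

end

end Pool.Agent.R356.Gold
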