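import Mathlib
import Pool.Agent.R356.Gold.Inst

set_option autoImplicit false

namespace Pool.Agent.R356.Gold

/-- reduction to `0 < u` -/
theorem rc_of_pos {t s : ℝ} {F : ℝ → ℝ → ℝ} (hneg : ∀ u w, F (-u) (-w) = F u w)
    (h : ∀ u w, 0 < u → (U s u w ↔ F u w < F (-t * w) (u - t ^ 2 * w) ∧
    F u w < F (-t * u + t ^ 3 * w) (-t ^ 2 * u + t ^ 2 * w) ∧
    F u w < F (t ^ 3 * (u - w)) (t ^ 2 * u - (t ^ 2 - 1) * w) ∧
    F u w < F (w - t ^ 3 * u) (-(t ^ 2 - 1) * u - w))) :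
    ∀ u w, u ≠ 0 → (U s u w ↔ F u w < F (-t * w) (u - t ^ 2 * w) ∧
    F u w < F (-t * u + t ^ 3 * w) (-t ^ 2 * u + t ^ 2 * w) ∧
    F u w < F (t ^ 3 * (u - w)) (t ^ 2 * u - (t ^ 2 - 1) * w) ∧
    F u w < F (w - t ^ 3 * u) (-(t ^ 2 - 1) * u - w)) := by
  intro u w hu
  rcases lt_or_gt_of_ne hu with h0 | h0
  · have h1 := h (-u) (-w) (by linarith)
    have e1 : U s (-u) (-w) ↔ U s u w := by
      unfold U
      rw [abs_neg, abs_neg, neg_mul_neg]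
    rw [e1] at h1
    rw [h1, hneg u w]
    have f1 : F (-t * -w) (-u - t ^ 2 * -w) = F (-t * w) (u - t ^ 2 * w) := by
      rw [← hneg]; congr 1 <;> ring
    have f2 : F (-t * -u + t ^ 3 * -w) (-t ^ 2 * -u + t ^ 2 * -w) =
        F (-t * u + t ^ 3 * w) (-t ^ 2 * u + t ^ 2 * w) := by
      rw [← hneg]; congr 1 <;> ring
    have f3 : F (t ^ 3 * (-u - -w)) (t ^ 2 * -u - (t ^ 2 - 1) * -w) =
        F (t ^ 3 * (u - w)) (t ^ 2 * u - (t ^ 2 - 1) * w) := by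
      rw [← hneg]; congr 1 <;> ring
    have f4 : F (-w - t ^ 3 * -u) (-(t ^ 2 - 1) * -u - -w) =
        F (w - t ^ 3 * u) (-(t ^ 2 - 1) * u - w) := by
      rw [← hneg]; congr 1 <;> ring
    rw [f1, f2, f3, f4]
  · exact h u w h0

theorem U_iff {s u w : ℝ} (hs : 0 < s) (hu : 0 < u) : U s u w ↔ w < 0 ∨ s * u < w := by
  unfold U
  rw [abs_of_pos hu]
  constructor
  · rintro (h | h)
    · left
      by_contra h1
      push Not at h1
      nlinarith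
    · rcases lt_or_ge w 0 with h1 | h1
      · exact Or.inl h1
      · rw [abs_of_nonneg h1] at h
        exact Or.inr h
  · rintro (h | h)
    · left; nlinarith
    · right
      rw [abs_of_pos (lt_trans (by positivity) h)]
      exact h

theorem euc_a {t u w : ℝ} (l1 : 1.32471 < t) (s1 : 1.75485 < t ^ 2) (hu : 0 < u)
    (h : w < 0) : 0 < w * ((2 * t ^ 2 + t - 1) * w - 2 * t ^ 2 * u) := by
  apply mul_pos_of_neg_of_neg h
  have a1 : (2 * t ^ 2 + t - 1) * w < 0 := mul_neg_of_pos_of_neg (by linarith) h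
  have a2 : 0 < 2 * t ^ 2 * u := by positivity
  linarith

theorem euc_b {t u w : ℝ} (l1 : 1.32471 < t) (s1 : 1.75485 < t ^ 2) (hu : 0 < u)
    (h : w < 0) : 0 < (2 * t ^ 2 + 3 * t) * w ^ 2 - 4 * (t ^ 2 + t) * u * w +
            (2 * t ^ 2 + t - 1) * u ^ 2 := by
  have t0 : 0 < t := by linarith
  have hw : 0 < -w := by linarith
  have huw : 0 < u * (-w) := mul_pos hu hw
  have hww : 0 < w ^ 2 := by rw [← neg_sq]; positivity
  have a1 : 0 < (2 * t ^ 2 + 3 * t) * w ^ 2 := by positivity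
  have a2 : 0 < 4 * (t ^ 2 + t) * (u * (-w)) := by positivity
  have a3 : 0 < (2 * t ^ 2 + t - 1) * u ^ 2 := mul_pos (by linarith) (by positivity)
  linarith

theorem euc_c {t u w : ℝ} (l1 : 1.32471 < t) (hu : 0 < u)
    (h : w < 0) : 0 < (3 * t + 1) * w ^ 2 - 2 * (t ^ 2 + 3 * t + 1) * u * w +
            (2 * t ^ 2 + 3 * t) * u ^ 2 := by
  have t0 : 0 < t := by linarith
  have hw : 0 < -w := by linarith
  have huw : 0 < u * (-w) := mul_pos hu hw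
  have hww : 0 < w ^ 2 := by rw [← neg_sq]; positivity
  have a1 : 0 < (3 * t + 1) * w ^ 2 := by positivity
  have a2 : 0 < 2 * (t ^ 2 + 3 * t + 1) * (u * (-w)) := by positivity
  have a3 : 0 < (2 * t ^ 2 + 3 * t) * u ^ 2 := by positivity
  linarith

theorem euc_d {t u w : ℝ} (l1 : 1.32471 < t) (s1 : 1.75485 < t ^ 2) (s2 : t ^ 2 < 1.75489)
    (hu : 0 < u) (hw : 1.9 * u < w) : 0 < w * ((2 * t ^ 2 + t - 1) * w - 2 * t ^ 2 * u) := by
  have hw0 : 0 < w := by linarith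
  apply mul_pos hw0
  have a1 : 3.8 * w < (2 * t ^ 2 + t - 1) * w := mul_lt_mul_of_pos_right (by linarith) hw0
  have a2 : 2 * t ^ 2 * u < 3.6 * u := mul_lt_mul_of_pos_right (by linarith) hu
  linarith

theorem euc_e {t u w : ℝ} (l1 : 1.32471 < t) (l2 : t < 1.32472) (s1 : 1.75485 < t ^ 2)
    (s2 : t ^ 2 < 1.75489) (hu : 0 < u) (hw : 1.9 * u < w) :
    0 < (2 * t ^ 2 + 3 * t) * w ^ 2 - 4 * (t ^ 2 + t) * u * w +
            (2 * t ^ 2 + t - 1) * u ^ 2 := by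
  have hw0 : 0 < w := by linarith
  have b1 : 7.4 * w < (2 * t ^ 2 + 3 * t) * w := mul_lt_mul_of_pos_right (by linarith) hw0
  have b2 : 4 * (t ^ 2 + t) * u < 12.4 * u := mul_lt_mul_of_pos_right (by linarith) hu
  have a1 : 0 < (2 * t ^ 2 + 3 * t) * w - 4 * (t ^ 2 + t) * u := by linarith
  have a3 : 0 < (2 * t ^ 2 + t - 1) * u ^ 2 := mul_pos (by linarith) (by positivity)
  have a4 := mul_pos a1 hw0
  have : (2 * t ^ 2 + 3 * t) * w ^ 2 - 4 * (t ^ 2 + t) * u * w = ((2 * t ^ 2 + 3 * t) * w - 4 * (t ^ 2 + t) * u) * w := by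
    ring
  rw [this]
  linarith

theorem euc_f {t u w s : ℝ} (l1 : 1.32471 < t) (l2 : t < 1.32472) (s2 : t ^ 2 < 1.75489)
    (r1 : 1.9 < s) (hu : 0 < u) (hw : 1.2 * u < w) :
    0 < (3 * t + 1) * w + ((3 * t + 1) * s - 2 * (t ^ 2 + 3 * t + 1)) * u := by
  have hw0 : 0 < w := by linarith
  have b0 : 4.974 < 3 * t + 1 := by linarith
  have b1 := mul_lt_mul'' r1 b0 (by norm_num) (by norm_num)
  have b2 : 4.974 * w < (3 * t + 1) * w := mul_lt_mul_of_pos_right b0 hw0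
  have b3 : (-4.1) * u < ((3 * t + 1) * s - 2 * (t ^ 2 + 3 * t + 1)) * u :=
    mul_lt_mul_of_pos_right (by linarith) hu
  linarith

theorem euc_g {t u w : ℝ} (l1 : 1.32471 < t) (l2 : t < 1.32472) (s1 : 1.75485 < t ^ 2)
    (s2 : t ^ 2 < 1.75489) (hu : 0 < u) (h0 : 0.915 * u < w) (h : w ≤ 1.2 * u) :
    (2 * t ^ 2 + 3 * t) * w ^ 2 - 4 * (t ^ 2 + t) * u * w +
            (2 * t ^ 2 + t - 1) * u ^ 2 ≤ 0 := by
  have t0 : 0 < t := by linarith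
  have a1 : 0 ≤ (2 * t ^ 2 + 3 * t) * ((w - 0.915 * u) * (1.2 * u - w)) := by
    apply mul_nonneg (by positivity)
    exact mul_nonneg (by linarith) (by linarith)
  have a2 : 0 < (2 * t ^ 2 + 3 * t) * 2.115 - 4 * (t ^ 2 + t) := by linarith
  have a3 : ((2 * t ^ 2 + 3 * t) * 2.115 - 4 * (t ^ 2 + t)) * u * w ≤
      ((2 * t ^ 2 + 3 * t) * 2.115 - 4 * (t ^ 2 + t)) * u * (1.2 * u) :=
    mul_le_mul_of_nonneg_left h (mul_pos a2 hu).le
  have a4 : (((2 * t ^ 2 + 3 * t) * 2.115 - 4 * (t ^ 2 + t)) * 1.2 + (2 * t ^ 2 + t - 1) -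
    (2 * t ^ 2 + 3 * t) * 1.098) * u ^ 2 ≤ 0 :=
    mul_nonpos_of_nonpos_of_nonneg (by linarith) (sq_nonneg u)
  linarith

theorem euc_h {t u w : ℝ} (l1 : 1.32471 < t) (l2 : t < 1.32472) (s1 : 1.75485 < t ^ 2)
    (s2 : t ^ 2 < 1.75489) (hu : 0 < u) (c1 : 0 ≤ w)
    (h1' : 0 < w * ((2 * t ^ 2 + t - 1) * w - 2 * t ^ 2 * u)) : 0.915 * u < w := by
  by_contra h
  push Not at h
  have b1 : (2 * t ^ 2 + t - 1) * w ≤ 3.8345 * w := mul_le_mul_of_nonneg_right (by linarith) c1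
  have b2 : 3.5097 * u < 2 * t ^ 2 * u := mul_lt_mul_of_pos_right (by linarith) hu
  have b3 : (2 * t ^ 2 + t - 1) * w - 2 * t ^ 2 * u ≤ 0 := by linarith
  have := mul_nonpos_of_nonneg_of_nonpos c1 b3
  linarith

section
variable {t : ℝ} (ht : t ^ 3 = t + 1)
include ht

theorem rc_euc : ∀ u w : ℝ, 0 < u → (U (sE t) u w ↔ u ^ 2 + w ^ 2 < (-t * w) ^ 2 + (u - t ^ 2 * w) ^ 2 ∧
    u ^ 2 + w ^ 2 < (-t * u + t ^ 3 * w) ^ 2 + (-t ^ 2 * u + t ^ 2 * w) ^ 2 ∧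
    u ^ 2 + w ^ 2 < (t ^ 3 * (u - w)) ^ 2 + (t ^ 2 * u - (t ^ 2 - 1) * w) ^ 2 ∧
    u ^ 2 + w ^ 2 < (w - t ^ 3 * u) ^ 2 + (-(t ^ 2 - 1) * u - w) ^ 2) := by
  intro u w hu
  have l1 := t_lo ht
  have l2 := t_hi ht
  have s1 := sq_lo ht
  have s2 := sq_hi ht
  have r1 := sE_lo ht
  have r3 := sE_root ht
  rw [U_iff (by linarith) hu]
  -- normal forms
  have n1 : (-t * w) ^ 2 + (u - t ^ 2 * w) ^ 2 - (u ^ 2 + w ^ 2) =
      w * ((2 * t ^ 2 + t - 1) * w - 2 * t ^ 2 * u) := by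
    linear_combination (t * w ^ 2) * ht
  have n2 : (-t * u + t ^ 3 * w) ^ 2 + (-t ^ 2 * u + t ^ 2 * w) ^ 2 - (u ^ 2 + w ^ 2) =
      (2 * t ^ 2 + 3 * t) * w ^ 2 - 4 * (t ^ 2 + t) * u * w + (2 * t ^ 2 + t - 1) * u ^ 2 := by
    linear_combination ((-4) * t * u * w + t * u ^ 2 + 2 * t * w ^ 2 + t ^ 3 * w ^ 2 + w ^ 2) * ht
  have n3 : (t ^ 3 * (u - w)) ^ 2 + (t ^ 2 * u - (t ^ 2 - 1) * w) ^ 2 - (u ^ 2 + w ^ 2) =
      (3 * t + 1) * w ^ 2 - 2 * (t ^ 2 + 3 * t + 1) * u * w + (2 * t ^ 2 + 3 * t) * u ^ 2 := by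
    linear_combination ((-4) * t * u * w + 2 * t * u ^ 2 + 2 * t * w ^ 2 + (-2) * t ^ 3 * u * w +
      t ^ 3 * u ^ 2 + t ^ 3 * w ^ 2 + (-2) * u * w + u ^ 2 + w ^ 2) * ht
  have n4 : (w - t ^ 3 * u) ^ 2 + (-(t ^ 2 - 1) * u - w) ^ 2 - (u ^ 2 + w ^ 2) =
      w ^ 2 - 2 * (t + 1 - (t ^ 2 - 1)) * u * w + (3 * t + 1) * u ^ 2 := by
    linear_combination (2 * t * u ^ 2 + t ^ 3 * u ^ 2 + (-2) * u * w + u ^ 2) * ht
  have n3' : (3 * t + 1) * w ^ 2 - 2 * (t ^ 2 + 3 * t + 1) * u * w + (2 * t ^ 2 + 3 * t) * u ^ 2 =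
      (w - sE t * u) * ((3 * t + 1) * w + ((3 * t + 1) * sE t - 2 * (t ^ 2 + 3 * t + 1)) * u) := by
    linear_combination u ^ 2 * r3
  have g4 : 0 < w ^ 2 - 2 * (t + 1 - (t ^ 2 - 1)) * u * w + (3 * t + 1) * u ^ 2 := by
    clear n1 n2 n3 n4 n3' r3 r1
    have hu2 : 0 < u ^ 2 := by positivity
    have h1 : (t + 1 - (t ^ 2 - 1)) ^ 2 < 2.5 := by
      have e1 : 0 < t + 1 - (t ^ 2 - 1) := by linarith
      have e2 : t + 1 - (t ^ 2 - 1) < 1.58 := by linarith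
      nlinarith
    have h2 : 0 < (3 * t + 1 - (t + 1 - (t ^ 2 - 1)) ^ 2) * u ^ 2 := mul_pos (by linarith) hu2
    have h3 := sq_nonneg (w - (t + 1 - (t ^ 2 - 1)) * u)
    linarith
  constructor
  · rintro (h | h)
    · have a1 := euc_a l1 s1 hu h
      have a2 := euc_b l1 s1 hu h
      have a3 := euc_c l1 hu h
      exact ⟨by linarith, by linarith, by linarith, by linarith⟩
    · have hw : 1.9 * u < w := lt_trans (mul_lt_mul_of_pos_right r1 hu) h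
      have a1 := euc_d l1 s1 s2 hu hw
      have a2 := euc_e l1 l2 s1 s2 hu hw
      have a3 := mul_pos (sub_pos.2 h) (euc_f (s := sE t) l1 l2 s2 r1 hu (by linarith : 1.2 * u < w))
      exact ⟨by linarith, by linarith, by linarith, by linarith⟩
  · rintro ⟨h1, h2, h3, -⟩
    by_contra hcon
    push Not at hcon
    obtain ⟨c1, c2⟩ := hcon
    have hw1 : 0.915 * u < w := euc_h l1 l2 s1 s2 hu c1 (by linarith)
    rcases le_or_gt w (1.2 * u) with h | h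
    · have := euc_g l1 l2 s1 s2 hu hw1 h
      linarith
    · have := mul_nonpos_of_nonpos_of_nonneg (sub_nonpos.2 c2)
        (euc_f (s := sE t) l1 l2 s2 r1 hu h).le
      linarith

/-- the Euclidean norm -/
theorem good_euc : Good t (sE t) (fun u w => u ^ 2 + w ^ 2) :=
  good_euc0 ht (rc_of_pos (F := fun u w => u ^ 2 + w ^ 2) (fun u w => by ring) (rc_euc ht))

end

end Pool.Agent.R356.Gold
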