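import Mathlib
import Pool.Agent.R356.Gold.T1

/-! The sup-norm. -/

set_option autoImplicit false

namespace Pool.Agent.R356.Gold

theorem lb1 {α β A B : ℝ} (hA : A ≤ |α|) (hB : |β| ≤ B) (u w : ℝ) :
    A * |u| - B * |w| ≤ |α * u + β * w| := by
  have h1 : |α * u| - |-(β * w)| ≤ |α * u - -(β * w)| := abs_sub_abs_le_abs_sub _ _
  rw [sub_neg_eq_add, abs_neg, abs_mul, abs_mul] at h1
  have h2 : A * |u| ≤ |α| * |u| := mul_le_mul_of_nonneg_right hA (abs_nonneg _)
  have h3 : |β| * |w| ≤ B * |w| := mul_le_mul_of_nonneg_right hB (abs_nonneg _)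
  linarith

theorem sup_pos {u w : ℝ} (h : u ≠ 0 ∨ w ≠ 0) : 0 < max |u| |w| := by
  rcases h with h | h
  · exact lt_max_of_lt_left (abs_pos.2 h)
  · exact lt_max_of_lt_right (abs_pos.2 h)

section
variable {t : ℝ} (ht : t ^ 3 = t + 1)
include ht

theorem q_ge_sup (u w : ℝ) : (3 * t ^ 2 / 4 - 1) * max |u| |w| ^ 2 ≤ q t u w := by
  have l1 := t_lo ht
  have s1 := sq_lo ht
  have s2 := sq_hi ht
  have l2 := t_hi ht
  unfold q
  rcases le_total |u| |w| with h | h
  · rw [max_eq_right h, sq_abs]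
    have h3 : 4 * (t ^ 2 - 1) * ((t ^ 2 - 1) * u ^ 2 - t * u * w + w ^ 2 -
        (3 * t ^ 2 / 4 - 1) * w ^ 2) = (2 * (t ^ 2 - 1) * u - t * w) ^ 2 +
        (7 * t ^ 2 - 3 * t - 8) * w ^ 2 := by
      linear_combination (-3 * t * w ^ 2) * ht
    have h4 : 0 ≤ (7 * t ^ 2 - 3 * t - 8) * w ^ 2 := mul_nonneg (by linarith) (sq_nonneg w)
    have h5 : 0 ≤ 4 * (t ^ 2 - 1) * ((t ^ 2 - 1) * u ^ 2 - t * u * w + w ^ 2 -
        (3 * t ^ 2 / 4 - 1) * w ^ 2) := by
      rw [h3]; positivity
    have h6 : 0 < 4 * (t ^ 2 - 1) := by linarith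
    have := nonneg_of_mul_nonneg_right h5 h6
    linarith
  · rw [max_eq_left h, sq_abs]
    nlinarith [sq_nonneg (w - t * u / 2)]

theorem q_le_sup (u w : ℝ) : q t u w ≤ (t ^ 2 + t) * max |u| |w| ^ 2 := by
  have l1 := t_lo ht
  have s1 := sq_lo ht
  have s2 := sq_hi ht
  unfold q
  have h1 : |u| ≤ max |u| |w| := le_max_left _ _
  have h2 : |w| ≤ max |u| |w| := le_max_right _ _
  set M := max |u| |w| with hM
  have hM0 : 0 ≤ M := le_trans (abs_nonneg u) h1
  have a1 : u ^ 2 ≤ M ^ 2 := by rw [← sq_abs u]; exact pow_le_pow_left₀ (abs_nonneg _) h1 2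
  have a2 : w ^ 2 ≤ M ^ 2 := by rw [← sq_abs w]; exact pow_le_pow_left₀ (abs_nonneg _) h2 2
  have a3 : -(u * w) ≤ M ^ 2 := by
    have : |u * w| ≤ M * M := by rw [abs_mul]; exact mul_le_mul h1 h2 (abs_nonneg _) hM0
    have := neg_abs_le (u * w)
    nlinarith
  have b1 : (t ^ 2 - 1) * u ^ 2 ≤ (t ^ 2 - 1) * M ^ 2 := mul_le_mul_of_nonneg_left a1 (by linarith)
  have b3 : t * (-(u * w)) ≤ t * M ^ 2 := mul_le_mul_of_nonneg_left a3 (by linarith)
  linarith

end

theorem sup_g5 {t u w : ℝ} (l1 : 1.32471 < t) (l2 : t < 1.32472) (s1 : 1.75485 < t ^ 2)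
    (s2 : t ^ 2 < 1.75489) (h0 : u ≠ 0 ∨ w ≠ 0) :
    max |u| |w| < max |-t * u + (1 - t) * w| |(2 - t ^ 2) * u - t ^ 2 * w| := by
  have p := sup_pos h0
  rcases le_or_gt |u| |w| with h | h
  · rw [max_eq_right h] at p ⊢
    refine lt_max_of_lt_right ?_
    have h1 := lb1 (α := -t ^ 2) (β := 2 - t ^ 2) (A := 1.75) (B := 0.25)
      (by rw [abs_neg, abs_of_pos (by linarith)]; linarith) (by rw [abs_of_pos (by linarith)]; linarith) w u
    rw [show (2 - t ^ 2) * u - t ^ 2 * w = -t ^ 2 * w + (2 - t ^ 2) * u by ring]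
    linarith
  · rw [max_eq_left h.le] at p ⊢
    refine lt_max_of_lt_left ?_
    have h1 := lb1 (α := -t) (β := 1 - t) (A := t) (B := t - 1)
      (by rw [abs_neg, abs_of_pos (by linarith)]) (by rw [abs_of_neg (by linarith)]; linarith) u w
    have h2 : (t - 1) * |w| < (t - 1) * |u| := mul_lt_mul_of_pos_left h (by linarith)
    linarith

theorem sup_g7 {t u w : ℝ} (l1 : 1.32471 < t) (l2 : t < 1.32472) (s1 : 1.75485 < t ^ 2)
    (s2 : t ^ 2 < 1.75489) (h0 : u ≠ 0 ∨ w ≠ 0) :
    max |u| |w| < max |-(1 + t) * u + (1 - t) * w| |(2 - t ^ 2) * u - (1 + t ^ 2) * w| := by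
  have p := sup_pos h0
  rcases le_or_gt |u| |w| with h | h
  · rw [max_eq_right h] at p ⊢
    refine lt_max_of_lt_right ?_
    have h1 := lb1 (α := -(1 + t ^ 2)) (β := 2 - t ^ 2) (A := 2.75) (B := 0.25)
      (by rw [abs_neg, abs_of_pos (by linarith)]; linarith) (by rw [abs_of_pos (by linarith)]; linarith) w u
    rw [show (2 - t ^ 2) * u - (1 + t ^ 2) * w = -(1 + t ^ 2) * w + (2 - t ^ 2) * u by ring]
    linarith
  · rw [max_eq_left h.le] at p ⊢
    refine lt_max_of_lt_left ?_
    have h1 := lb1 (α := -(1 + t)) (β := 1 - t) (A := 2.3) (B := 0.4)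
      (by rw [abs_neg, abs_of_pos (by linarith)]; linarith) (by rw [abs_of_neg (by linarith)]; linarith) u w
    linarith

theorem sup_g11 {t u w : ℝ} (l1 : 1.32471 < t) (l2 : t < 1.32472) (s1 : 1.75485 < t ^ 2)
    (_s2 : t ^ 2 < 1.75489) (h0 : u ≠ 0 ∨ w ≠ 0) :
    max |u| |w| < max |2 * u + t * w| |-u + (2 + t ^ 2) * w| := by
  have p := sup_pos h0
  have k1 := lb1 (α := 2 + t ^ 2) (β := -1) (A := 3.75) (B := 1)
      (by rw [abs_of_pos (by linarith)]; linarith) (by norm_num) w u
  have k2 : (2 + t ^ 2) * w + -1 * u = -u + (2 + t ^ 2) * w := by ring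
  rw [k2] at k1
  have k3 := lb1 (α := 2) (β := t) (A := 2) (B := 1.33)
      (by norm_num) (by rw [abs_of_pos (by linarith)]; linarith) u w
  rcases le_or_gt |u| |w| with h | h
  · rw [max_eq_right h] at p ⊢
    refine lt_max_of_lt_right ?_
    linarith
  · rw [max_eq_left h.le] at p ⊢
    rcases le_or_gt |w| (0.7 * |u|) with h2 | h2
    · refine lt_max_of_lt_left ?_
      linarith
    · refine lt_max_of_lt_right ?_
      linarith

theorem sup_four {t u w : ℝ} (l1 : 1.32471 < t) (l2 : t < 1.32472) (s1 : 1.75485 < t ^ 2)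
    (s2 : t ^ 2 < 1.75489) :
    max |(1 - t) * (u + w)| |(2 - t ^ 2) * u - (t ^ 2 - 1) * w| ≤ max |u| |w| := by
  have h1 : |u| ≤ max |u| |w| := le_max_left _ _
  have h2 : |w| ≤ max |u| |w| := le_max_right _ _
  set M := max |u| |w| with hM
  have hM0 : 0 ≤ M := le_trans (abs_nonneg u) h1
  apply max_le
  · rw [abs_mul, abs_of_neg (by linarith)]
    have h3 : |u + w| ≤ |u| + |w| := abs_add_le _ _
    have h4 : -(1 - t) * |u + w| ≤ 0.33 * |u + w| :=
      mul_le_mul_of_nonneg_right (by linarith) (abs_nonneg _)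
    linarith
  · have h3 : |(2 - t ^ 2) * u - (t ^ 2 - 1) * w| ≤ |(2 - t ^ 2) * u| + |(t ^ 2 - 1) * w| :=
      abs_sub _ _
    rw [abs_mul, abs_mul, abs_of_pos (by linarith : 0 < 2 - t ^ 2),
      abs_of_pos (by linarith : 0 < t ^ 2 - 1)] at h3
    have h4 : (2 - t ^ 2) * |u| ≤ (2 - t ^ 2) * M := mul_le_mul_of_nonneg_left h1 (by linarith)
    have h5 : (t ^ 2 - 1) * |w| ≤ (t ^ 2 - 1) * M := mul_le_mul_of_nonneg_left h2 (by linarith)
    linarith

theorem rc_sup {t : ℝ} (ht : t ^ 3 = t + 1) (l1 : 1.32471 < t) (l2 : t < 1.32472)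
    (s1 : 1.75485 < t ^ 2) (s2 : t ^ 2 < 1.75489) (u w : ℝ) (hu : 0 < u) :
    U (t ^ 2) u w ↔ max |u| |w| < max |-t * w| |u - t ^ 2 * w| ∧
    max |u| |w| < max |-t * u + t ^ 3 * w| |-t ^ 2 * u + t ^ 2 * w| ∧
    max |u| |w| < max |t ^ 3 * (u - w)| |t ^ 2 * u - (t ^ 2 - 1) * w| ∧
    max |u| |w| < max |w - t ^ 3 * u| |-(t ^ 2 - 1) * u - w| := by
  rw [U_iff (by linarith) hu, ht, abs_of_pos hu]
  have t0 : 0 < t := by linarith
  constructor
  · rintro (h | h)
    · obtain ⟨v, rfl⟩ : ∃ v, w = -v := ⟨-w, by ring⟩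
      have hv : 0 < v := by linarith
      rw [abs_neg, abs_of_pos hv]
      have f1 : 0 < t * u := mul_pos t0 hu
      have f2 : 0 < t * v := mul_pos t0 hv
      have f3 : v < t ^ 2 * v := by
        have := mul_lt_mul_of_pos_right (by linarith : 1 < t ^ 2) hv
        linarith
      have f4 : u < t ^ 2 * u := by
        have := mul_lt_mul_of_pos_right (by linarith : 1 < t ^ 2) hu
        linarith
      have f5 : u < t * u := by
        have := mul_lt_mul_of_pos_right (by linarith : 1 < t) hu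
        linarith
      refine ⟨?_, ?_, ?_, ?_⟩
      · refine lt_max_of_lt_right ?_
        rw [abs_of_pos (by linarith)]
        exact max_lt (by linarith) (by linarith)
      · refine lt_max_of_lt_left ?_
        rw [abs_of_neg (by linarith)]
        exact max_lt (by linarith) (by linarith)
      · refine lt_max_of_lt_left ?_
        rw [abs_of_pos (by linarith)]
        exact max_lt (by linarith) (by linarith)
      · refine lt_max_of_lt_left ?_
        rw [abs_of_neg (by linarith)]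
        exact max_lt (by linarith) (by linarith)
    · have hw : 0 < w := lt_trans (by positivity) h
      have f4 : u < t ^ 2 * u := by
        have := mul_lt_mul_of_pos_right (by linarith : 1 < t ^ 2) hu
        linarith
      have f5 : w < t * w := by
        have := mul_lt_mul_of_pos_right (by linarith : 1 < t) hw
        linarith
      have f6 : t ^ 3 * u < t * w := by
        have := mul_lt_mul_of_pos_left h t0
        linarith
      rw [ht] at f6
      rw [abs_of_pos hw, max_eq_right (by linarith)]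
      have f7 : 0 < t * u := mul_pos t0 hu
      refine ⟨?_, ?_, ?_, ?_⟩
      · refine lt_max_of_lt_left ?_
        rw [abs_of_neg (by linarith)]
        linarith
      · refine lt_max_of_lt_left ?_
        rw [abs_of_pos (by linarith)]
        linarith
      · refine lt_max_of_lt_left ?_
        rw [abs_of_neg (by linarith)]
        linarith
      · refine lt_max_of_lt_right ?_
        rw [abs_of_neg (by linarith)]
        linarith
  · rintro ⟨h1, h2, h3, -⟩
    by_contra hcon
    push Not at hcon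
    obtain ⟨c1, c2⟩ := hcon
    rw [abs_of_nonneg c1] at h1 h2 h3
    have e1 : t * (t ^ 2 - 1) = 1 := by linear_combination ht
    rcases le_or_gt w ((t ^ 2 - 1) * u) with h | h
    · have f1 : t * w ≤ u := by
        have := mul_le_mul_of_nonneg_left h t0.le
        rw [← mul_assoc, e1, one_mul] at this
        exact this
      have f2 : t ^ 2 * w ≤ 2 * u := by
        have g1 := mul_le_mul_of_nonneg_left f1 t0.le
        have g2 : t * u ≤ 2 * u := mul_le_mul_of_nonneg_right (by linarith) hu.le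
        nlinarith
      have f3 : 0 ≤ t * w := mul_nonneg t0.le c1
      have f4 : 0 ≤ t ^ 2 * w := by positivity
      have : max |-t * w| |u - t ^ 2 * w| ≤ u := by
        apply max_le
        · rw [abs_le]; constructor <;> linarith
        · rw [abs_le]; constructor <;> linarith
      have := lt_of_le_of_lt (le_max_left _ _) (lt_of_lt_of_le h1 this)
      linarith
    · rcases le_or_gt w u with h' | h'
      · have f1 : (t + 1) * w ≤ (t + 1) * u := mul_le_mul_of_nonneg_left h' (by linarith)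
        have f2 : (t + 1) * ((t ^ 2 - 1) * u) ≤ (t + 1) * w :=
          mul_le_mul_of_nonneg_left h.le (by linarith)
        have f3 : (t + 1) * ((t ^ 2 - 1) * u) = t ^ 2 * u := by
          linear_combination u * ht
        have f4 : t * u ≤ t ^ 2 * u := mul_le_mul_of_nonneg_right (by linarith) hu.le
        have f5 : t ^ 2 * ((t ^ 2 - 1) * u) ≤ t ^ 2 * w :=
          mul_le_mul_of_nonneg_left h.le (by positivity)
        have f6 : t ^ 2 * w ≤ t ^ 2 * u := mul_le_mul_of_nonneg_left h' (by positivity)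
        have f7 : t ^ 2 * ((t ^ 2 - 1) * u) = t * u := by
          linear_combination (t * u) * ht
        have f8 : t ^ 2 * u ≤ (t + 1) * u := mul_le_mul_of_nonneg_right (by linarith) hu.le
        have : max |-t * u + (t + 1) * w| |-t ^ 2 * u + t ^ 2 * w| ≤ u := by
          apply max_le
          · rw [abs_le]; constructor <;> linarith
          · rw [abs_le]; constructor <;> linarith
        have := lt_of_le_of_lt (le_max_left _ _) (lt_of_lt_of_le h2 this)
        linarith
      · have f1 : t * w ≤ t * (t ^ 2 * u) := mul_le_mul_of_nonneg_left c2 t0.le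
        have f2 : t * (t ^ 2 * u) = (t + 1) * u := by linear_combination u * ht
        have f3 : (t + 1) * u ≤ (t + 1) * w := mul_le_mul_of_nonneg_left h'.le (by linarith)
        have f4 : t ^ 2 * u ≤ t ^ 2 * w := mul_le_mul_of_nonneg_left h'.le (by positivity)
        have f5 : 0 ≤ t ^ 2 * u := by positivity
        have f6 : t ^ 2 * w ≤ 2 * w := mul_le_mul_of_nonneg_right (by linarith) c1
        have : max |(t + 1) * (u - w)| |t ^ 2 * u - (t ^ 2 - 1) * w| ≤ w := by
          apply max_le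
          · rw [abs_le]; constructor <;> linarith
          · rw [abs_le]; constructor <;> linarith
        have := lt_of_le_of_lt (le_max_right _ _) (lt_of_lt_of_le h3 this)
        linarith

/-- the sup-norm -/
theorem good_sup {t : ℝ} (ht : t ^ 3 = t + 1) : Good t (t ^ 2) (fun u w => max |u| |w|) := by
  have l1 := t_lo ht
  have l2 := t_hi ht
  have s1 := sq_lo ht
  have s2 := sq_hi ht
  have t0 := t_pos ht
  refine ⟨?_, ?_, ?_, ?_, ?_, ?_, ?_, ?_, ?_, ?_, ?_⟩
  · intro u w
    show max |-u| |-w| = _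
    rw [abs_neg, abs_neg]
  · refine ⟨0.8, by norm_num, fun u w h => ?_⟩
    have h1 : |u| ≤ 0.8 := (le_max_left _ _).trans h
    have h2 : |w| ≤ 0.8 := (le_max_right _ _).trans h
    refine ⟨by linarith, by linarith, ?_⟩
    have h3 : |t * u + w| ≤ |t * u| + |w| := abs_add_le _ _
    rw [abs_mul, abs_of_pos t0] at h3
    have h4 : t * |u| ≤ t * 0.8 := mul_le_mul_of_nonneg_left h1 t0.le
    linarith
  · intro η hη
    refine ⟨min 1 (η / 4), lt_min one_pos (by positivity), fun u w h => ?_⟩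
    have h1 := q_le_sup ht u w
    have h2 : max |u| |w| ≤ 1 := h.trans (min_le_left _ _)
    have h3 : max |u| |w| ≤ η / 4 := h.trans (min_le_right _ _)
    have h4 : 0 ≤ max |u| |w| := le_trans (abs_nonneg u) (le_max_left _ _)
    have h5 : max |u| |w| ^ 2 ≤ η / 4 := by
      rw [sq]
      calc _ ≤ 1 * (η / 4) := mul_le_mul h2 h3 h4 zero_le_one
        _ = _ := one_mul _
    have h6 : (t ^ 2 + t) * max |u| |w| ^ 2 ≤ 4 * max |u| |w| ^ 2 :=
      mul_le_mul_of_nonneg_right (by linarith) (sq_nonneg _)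
    linarith
  · intro ε hε
    refine ⟨0.3 * ε ^ 2, by positivity, fun u w h => ?_⟩
    have h1 := q_ge_sup ht u w
    have h2 : 0.3 * max |u| |w| ^ 2 ≤ (3 * t ^ 2 / 4 - 1) * max |u| |w| ^ 2 :=
      mul_le_mul_of_nonneg_right (by linarith) (sq_nonneg _)
    have h3 : max |u| |w| ^ 2 ≤ ε ^ 2 := by linarith
    exact le_of_sq_le_sq h3 hε.le
  · intro u w u' w' h0 h
    have p := sup_pos h0
    show max |u| |w| < max |u'| |w'|
    have h1 := q_ge_sup ht u w
    have h2 := q_le_sup ht u' w'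
    have h3 : 0 ≤ max |u'| |w'| := le_trans (abs_nonneg u') (le_max_left _ _)
    have h4 : t * q t u' w' ≤ (t ^ 2 + t + 1) * max |u'| |w'| ^ 2 := by
      have := mul_le_mul_of_nonneg_left h2 t0.le
      have e : t * ((t ^ 2 + t) * max |u'| |w'| ^ 2) = (t ^ 2 + t + 1) * max |u'| |w'| ^ 2 := by
        linear_combination (max |u'| |w'| ^ 2) * ht
      linarith
    have h5 : (t ^ 2 + t + 1) * max |u'| |w'| ^ 2 ≤ 4.08 * max |u'| |w'| ^ 2 :=
      mul_le_mul_of_nonneg_right (by linarith) (sq_nonneg _)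
    have h6 : 4.1 * max |u| |w| ^ 2 ≤ 13 * ((3 * t ^ 2 / 4 - 1) * max |u| |w| ^ 2) := by
      have := mul_le_mul_of_nonneg_right (by linarith : 4.1 ≤ 13 * (3 * t ^ 2 / 4 - 1))
        (sq_nonneg (max |u| |w|))
      linarith
    have h7 : 0 < max |u| |w| ^ 2 := by positivity
    have h8 : max |u| |w| ^ 2 < max |u'| |w'| ^ 2 := by linarith
    exact lt_of_pow_lt_pow_left₀ 2 h3 h8
  · intro u w h0
    exact sup_g5 l1 l2 s1 s2 h0
  · intro u w h0
    exact sup_g7 l1 l2 s1 s2 h0
  · intro u w h0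
    have p := sup_pos h0
    show max |u| |w| < max |2 * u| |2 * w|
    have e2 : |(2 : ℝ)| = 2 := abs_two
    rw [abs_mul, abs_mul, e2, ← mul_max_of_nonneg _ _ (by norm_num : (0 : ℝ) ≤ 2)]
    linarith
  · intro u w h0
    exact sup_g11 l1 l2 s1 s2 h0
  · exact rc_of_pos (F := fun u w => max |u| |w|)
      (fun u w => by show max |-u| |-w| = _; rw [abs_neg, abs_neg])
      (fun u w hu => rc_sup ht l1 l2 s1 s2 u w hu)
  · intro u w
    exact sup_four l1 l2 s1 s2

end Pool.Agent.R356.Gold
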