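import Mathlib
import Pool.Agent.R356.Gold.T2

/-! Best approximation vectors. -/

set_option autoImplicit false

namespace Pool.Agent.R356.Gold

/-- `(x, y, z)` is a best approximation vector of `(θ₁, θ₂)` for `N`. -/
def IsBest (N : ℝ → ℝ → ℝ) (θ₁ θ₂ : ℝ) (x y z : ℤ) : Prop :=
  ¬(x = 0 ∧ y = 0 ∧ z = 0) ∧ ∀ x' y' z' : ℤ, |x'| ≤ |x| →
    N (x' * θ₁ - y') (x' * θ₂ - z') ≤ N (x * θ₁ - y) (x * θ₂ - z) →
    (x' = 0 ∧ y' = 0 ∧ z' = 0) ∨ (x' = x ∧ y' = y ∧ z' = z) ∨ (x' = -x ∧ y' = -y ∧ z' = -z)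

theorem P_five (n : ℕ) : P (n + 5) = P (n + 4) + P n := by
  have h1 := P_rec (n + 2)
  have h2 := P_rec (n + 1)
  have h3 := P_rec n
  rw [show n + 2 + 3 = n + 5 by ring, show n + 2 + 1 = n + 3 by ring] at h1
  rw [show n + 1 + 3 = n + 4 by ring, show n + 1 + 1 = n + 2 by ring] at h2
  linarith

theorem P_nonneg (n : ℕ) : 0 ≤ P n := by
  induction n using Nat.strong_induction_on with
  | _ n ih =>
    match n with
    | 0 => simp [P]
    | 1 => simp [P]
    | 2 => simp [P]
    | (m + 3) =>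
      rw [P_rec]
      have h1 := ih (m + 1) (by omega)
      have h2 := ih m (by omega)
      omega

theorem P_pos (n : ℕ) : 1 ≤ P (n + 4) := by
  induction n with
  | zero => simp [P]
  | succ n ih =>
    rw [show n + 1 + 4 = n + 5 by ring, P_five]
    have := P_nonneg n
    omega

theorem P_mono : StrictMono (fun n => P (n + 8)) := by
  apply strictMono_nat_of_lt_succ
  intro n
  have h1 := P_five (n + 4)
  have h2 := P_pos n
  rw [show n + 4 + 5 = n + 1 + 8 by ring, show n + 4 + 4 = n + 8 by ring] at h1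
  show P (n + 8) < P (n + 1 + 8)
  omega

theorem P_lt_of {m k : ℕ} (h : m < k) (hk : 9 ≤ k) : P m < P k := by
  rcases Nat.lt_or_ge m 8 with h8 | h8
  · have h9 : P 9 ≤ P k := by
      have : P (1 + 8) ≤ P (k - 8 + 8) := P_mono.monotone (show 1 ≤ k - 8 by omega)
      rwa [show k - 8 + 8 = k by omega, show 1 + 8 = 9 by norm_num] at this
    have : P 9 = 3 := by simp [P]
    interval_cases m <;> simp [P] <;> omega
  · have : P (m - 8 + 8) < P (k - 8 + 8) := P_mono (show m - 8 < k - 8 by omega)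
    rwa [show k - 8 + 8 = k by omega, show m - 8 + 8 = m by omega] at this

theorem neg_e1 (t : ℝ) (x y : ℤ) : e1 t (-x) (-y) = -e1 t x y := by
  unfold e1; push_cast; ring

theorem neg_e2 (t : ℝ) (x y : ℤ) : e2 t (-x) (-y) = -e2 t x y := by
  unfold e2; push_cast; ring

theorem isBest_neg {N : ℝ → ℝ → ℝ} (hN : ∀ u w, N (-u) (-w) = N u w) {θ₁ θ₂ : ℝ} {x y z : ℤ}
    (h : IsBest N θ₁ θ₂ x y z) : IsBest N θ₁ θ₂ (-x) (-y) (-z) := by
  refine ⟨fun h0 => h.1 ⟨by omega, by omega, by omega⟩, fun x' y' z' h1 h2 => ?_⟩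
  rw [abs_neg] at h1
  have e : N (((-x : ℤ) : ℝ) * θ₁ - ((-y : ℤ) : ℝ)) (((-x : ℤ) : ℝ) * θ₂ - ((-z : ℤ) : ℝ)) =
      N (x * θ₁ - y) (x * θ₂ - z) := by
    rw [← hN]; push_cast; congr 1 <;> ring
  rw [e] at h2
  rcases h.2 x' y' z' h1 h2 with h3 | h3 | h3
  · exact Or.inl h3
  · right; right; exact ⟨by omega, by omega, by omega⟩
  · right; left; exact h3

section
variable {t : ℝ} (ht : t ^ 3 = t + 1)
include ht

theorem irr : Irrational t := by
  rintro ⟨r, hr⟩
  have h1 : r ^ 3 = r + 1 := by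
    have : (r : ℝ) ^ 3 = r + 1 := by rw [hr]; exact ht
    exact_mod_cast this
  have h2 : (r.num : ℚ) ^ 3 = r.num * r.den ^ 2 + r.den ^ 3 := by
    have h3 : (r.den : ℚ) ≠ 0 := by exact_mod_cast r.den_nz
    have h4 : (r.num : ℚ) = r * r.den := by
      rw [Rat.mul_den_eq_num]
    rw [h4]
    linear_combination (r.den : ℚ) ^ 3 * h1
  have h3 : r.num ^ 3 = r.num * r.den ^ 2 + r.den ^ 3 := by exact_mod_cast h2
  have h4 := congrArg Even h3
  rw [Int.even_add, Int.even_mul, Int.even_pow, Int.even_pow, Int.even_pow] at h4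
  have h5 : Even r.num ∧ Even (r.den : ℤ) := by
    by_cases c1 : Even r.num <;> by_cases c2 : Even (r.den : ℤ) <;> simp_all
  have h6 := r.reduced
  have h7 : 2 ∣ r.num.natAbs := by
    have := h5.1.two_dvd
    omega
  have h8 : 2 ∣ r.den := by
    have := h5.2.two_dvd
    omega
  have h9 := Nat.dvd_gcd h7 h8
  rw [h6] at h9
  omega

theorem e1_ne {x y : ℤ} (hx : x ≠ 0) : e1 t x y ≠ 0 := by
  intro h
  unfold e1 at h
  have hx' : (x : ℝ) ≠ 0 := by exact_mod_cast hx
  apply irr ht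
  refine ⟨(y : ℚ) / x, ?_⟩
  push_cast
  rw [div_eq_iff hx']
  linarith

theorem a_ne (k : ℕ) : a t (k + 4) ≠ 0 := by
  unfold a
  apply e1_ne ht
  have := P_pos k
  omega

omit ht in
theorem al_eq (x y z : ℤ) : al t x y z = x * (3 * t ^ 2 - 1) - (t * e1 t x y + e2 t x z) := by
  unfold al e1 e2; ring

theorem tend_unit {s : ℝ} {F : ℝ → ℝ → ℝ} (hF : Good t s F) {ε : ℝ} (hε : 0 < ε) :
    ∃ m₀ : ℕ, ∀ m ≥ m₀, F (a t m) (c t m) ≤ ε := by
  obtain ⟨η, hη, h⟩ := hF.tend ε hε
  have l1 := t_lo ht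
  obtain ⟨m₀, hm₀⟩ := pow_unbounded_of_one_lt (1 / η) (by linarith : 1 < t)
  refine ⟨m₀, fun m hm => h _ _ ?_⟩
  have h1 := q_unit ht m
  have h2 : t ^ m₀ ≤ t ^ m := pow_le_pow_right₀ (by linarith) hm
  have h3 : 1 / η < t ^ m := lt_of_lt_of_le hm₀ h2
  have h4 : 0 < t ^ m := pow_pos (by linarith) m
  rw [div_lt_iff₀ hη] at h3
  by_contra hcon
  push Not at hcon
  have := mul_lt_mul_of_pos_left hcon h4
  linarith

/-- vectors with a small error -/
structure Sm (t : ℝ) (F : ℝ → ℝ → ℝ) (δ : ℝ) : Prop where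
  l : ∀ u w, F u w ≤ δ → |u| < 1 ∧ |w| < 1 ∧ |t * u + w| ≤ 2
  r : ∀ u w, F u w ≤ δ → q t u w ≤ 0.4

omit ht in
theorem exists_sm {s : ℝ} {F : ℝ → ℝ → ℝ} (hF : Good t s F) : ∃ δ > 0, Sm t F δ := by
  obtain ⟨δ₁, h1, h2⟩ := hF.small
  obtain ⟨δ₂, h3, h4⟩ := hF.qsmall 0.4 (by norm_num)
  exact ⟨min δ₁ δ₂, lt_min h1 h3, fun u w h => h2 u w (h.trans (min_le_left _ _)),
    fun u w h => h4 u w (h.trans (min_le_right _ _))⟩

theorem al_big {F : ℝ → ℝ → ℝ} {δ : ℝ} (hs : Sm t F δ) {x y z : ℤ} (hx : 1 ≤ x)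
    (h : F (e1 t x y) (e2 t x z) ≤ δ) : t ^ 3 ≤ al t x y z := by
  have l2 := t_hi ht
  have s1 := sq_lo ht
  have h1 := (hs.l _ _ h).2.2
  have h2 := hs.r _ _ h
  have h3 : 0 < al t x y z := by
    rw [al_eq]
    have hx' : (1 : ℝ) ≤ x := by exact_mod_cast hx
    have h4 : 1 * (3 * t ^ 2 - 1) ≤ (x : ℝ) * (3 * t ^ 2 - 1) :=
      mul_le_mul_of_nonneg_right hx' (by linarith)
    rw [abs_le] at h1
    linarith
  have h5 : 0 < q t (e1 t x y) (e2 t x z) := by
    have := q_ge ht (e1 t x y) (e2 t x z)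
    have h6 := euc_pos (Or.inl (e1_ne ht (y := y) (by omega : x ≠ 0)) : e1 t x y ≠ 0 ∨ e2 t x z ≠ 0)
    linarith
  have h6 := norm_eq ht x y z
  have h7 : (0 : ℝ) < Nm x y z := by rw [h6]; positivity
  have h8 : (1 : ℝ) ≤ Nm x y z := by
    have : 0 < Nm x y z := by exact_mod_cast h7
    exact_mod_cast (by omega : 1 ≤ Nm x y z)
  rw [h6] at h8
  have h9 : al t x y z * q t (e1 t x y) (e2 t x z) ≤ al t x y z * 0.4 :=
    mul_le_mul_of_nonneg_left h2 h3.le
  rw [ht]
  linarith

theorem P_le {F : ℝ → ℝ → ℝ} {δ : ℝ} (hs : Sm t F δ) {x y z : ℤ} {m : ℕ}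
    (h : F (e1 t x y) (e2 t x z) ≤ δ) (h' : F (a t m) (c t m) ≤ δ) (hm : t ^ m ≤ al t x y z) :
    P m ≤ x := by
  have s1 := sq_lo ht
  have h1 := (hs.l _ _ h).2.2
  have h2 := (hs.l _ _ h').2.2
  rw [abs_le] at h1 h2
  have h3 := al_unit ht m
  rw [al_eq] at h3 hm
  change (P m : ℝ) * (3 * t ^ 2 - 1) - (t * a t m + c t m) = t ^ m at h3
  by_contra hcon
  push Not at hcon
  have h4 : (x : ℝ) + 1 ≤ P m := by exact_mod_cast hcon
  have h5 : ((x : ℝ) + 1) * (3 * t ^ 2 - 1) ≤ P m * (3 * t ^ 2 - 1) :=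
    mul_le_mul_of_nonneg_right h4 (by linarith)
  linarith

/-- the structure of the best approximations -/
theorem structure_thm {s : ℝ} {F : ℝ → ℝ → ℝ} (hF : Good t s F) : ∃ K : ℕ, 9 ≤ K ∧
    (∀ x y z : ℤ, IsBest F t (t ^ 2) x y z → P K ≤ |x| →
      ∃ k ≥ K, |x| = P k ∧ U s (a t k) (c t k)) ∧
    (∀ k ≥ K, U s (a t k) (c t k) → IsBest F t (t ^ 2) (P k) (P (k + 1)) (P (k + 2))) := by
  obtain ⟨δ, hδ, hs⟩ := exists_sm hF
  obtain ⟨m₀, hm₀⟩ := tend_unit ht hF hδ
  have t0 := t_pos ht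
  have hinj : ∀ i m : ℕ, (P i = P m ∧ P (i + 1) = P (m + 1) ∧ P (i + 2) = P (m + 2)) → i = m := by
    intro i m h
    have h1 := al_unit ht i
    have h2 := al_unit ht m
    rw [h.1, h.2.1, h.2.2, h2] at h1
    exact (pow_right_injective₀ t0 (by linarith [t_lo ht]) h1).symm
  have hnz : ∀ m : ℕ, ¬(P m = 0 ∧ P (m + 1) = 0 ∧ P (m + 2) = 0) := by
    intro m h
    have h1 := al_unit ht m
    rw [h.1, h.2.1, h.2.2] at h1
    have : 0 < t ^ m := by positivity
    simp [al] at h1
    linarith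
  have hnn : ∀ i m : ℕ, ¬(P i = -P m ∧ P (i + 1) = -P (m + 1) ∧ P (i + 2) = -P (m + 2)) := by
    intro i m h
    have h1 := P_nonneg i
    have h2 := P_nonneg m
    have h3 := P_nonneg (i + 1)
    have h4 := P_nonneg (m + 1)
    have h5 := P_nonneg (i + 2)
    have h6 := P_nonneg (m + 2)
    exact hnz m ⟨by omega, by omega, by omega⟩
  set K := max m₀ 9 with hK
  have hK9 : 9 ≤ K := le_max_right _ _
  have hKm : m₀ ≤ K := le_max_left _ _
  have hPK : 1 ≤ P K := by
    have := P_pos (K - 4)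
    rwa [show K - 4 + 4 = K by omega] at this
  refine ⟨K, hK9, ?_, ?_⟩
  · -- reduction to positive x
    have main : ∀ x y z : ℤ, IsBest F t (t ^ 2) x y z → P K ≤ x →
        ∃ k ≥ K, x = P k ∧ U s (a t k) (c t k) := by
      intro x y z hb hx
      have hx1 : 1 ≤ x := by omega
      have hsm : F (e1 t x y) (e2 t x z) ≤ δ := by
        by_contra hcon
        push Not at hcon
        have h1 := hm₀ K hKm
        have h2 := hb.2 (P K) (P (K + 1)) (P (K + 2)) (by
          rw [abs_of_pos (by omega), abs_of_pos (by omega)]; exact hx) (h1.trans hcon.le)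
        rcases h2 with h2 | h2 | h2
        · exact hnz K h2
        · have : F (e1 t x y) (e2 t x z) = F (a t K) (c t K) := by
            rw [← h2.1, ← h2.2.1, ← h2.2.2]; rfl
          linarith
        · omega
      have hal := al_big ht hs hx1 hsm
      rcases beat ht hF hal with ⟨m, rfl, rfl, rfl⟩ | ⟨m, hm1, hm2⟩
      · have hmK : K ≤ m := by
          by_contra h
          push Not at h
          have := P_lt_of h hK9
          omega
        refine ⟨m, hmK, rfl, ?_⟩
        obtain ⟨j, rfl⟩ : ∃ j, m = j + 4 := ⟨m - 4, by omega⟩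
        apply record_conv ht hF (a_ne ht j)
        intro i hi
        by_contra hcon
        push Not at hcon
        have h2 := hb.2 (P i) (P (i + 1)) (P (i + 2)) (by
          rw [abs_of_nonneg (P_nonneg _), abs_of_nonneg (P_nonneg _)]
          exact (P_lt_of hi (by omega)).le) hcon
        rcases h2 with h2 | h2 | h2
        · exact hnz i h2
        · have := hinj i (j + 4) h2
          omega
        · exact hnn i (j + 4) h2
      · exfalso
        have h1 := P_le ht hs hsm (hm2.le.trans hsm) hm1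
        have h2 := hb.2 (P m) (P (m + 1)) (P (m + 2)) (by
          rw [abs_of_nonneg (P_nonneg _), abs_of_pos (by omega)]
          exact h1) hm2.le
        rcases h2 with h2 | h2 | h2
        · exact hnz m h2
        · have : F (e1 t x y) (e2 t x z) = F (a t m) (c t m) := by
            rw [← h2.1, ← h2.2.1, ← h2.2.2]; rfl
          linarith
        · have := P_nonneg m
          omega
    intro x y z hb hx
    rcases le_total 0 x with h0 | h0
    · rw [abs_of_nonneg h0] at hx ⊢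
      exact main x y z hb hx
    · rw [abs_of_nonpos h0] at hx ⊢
      exact main (-x) (-y) (-z) (isBest_neg hF.neg hb) hx
  · intro k hk hU
    obtain ⟨j, rfl⟩ : ∃ j, k = j + 4 := ⟨k - 4, by omega⟩
    have hrec := record ht hF (a_ne ht j) hU
    have main : ∀ x' y' z' : ℤ, 0 < x' → x' ≤ P (j + 4) →
        F (e1 t x' y') (e2 t x' z') ≤ F (a t (j + 4)) (c t (j + 4)) →
        x' = P (j + 4) ∧ y' = P (j + 4 + 1) ∧ z' = P (j + 4 + 2) := by
      intro x' y' z' h1 h2 h3
      have hδk := hm₀ (j + 4) (by omega)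
      have hsm := h3.trans hδk
      have hal := al_big ht hs (by omega) hsm
      rcases beat ht hF hal with ⟨m, rfl, rfl, rfl⟩ | ⟨m, hm1, hm2⟩
      · have e1 : ¬ m < j + 4 := by
          intro h
          have := hrec m h
          have h3' : F (a t m) (c t m) ≤ F (a t (j + 4)) (c t (j + 4)) := h3
          linarith
        have e2 : ¬ j + 4 < m := by
          intro h
          have := P_lt_of h (by omega)
          omega
        have e3 : m = j + 4 := by omega
        subst e3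
        exact ⟨rfl, rfl, rfl⟩
      · exfalso
        have h4 := P_le ht hs hsm (hm2.le.trans hsm) hm1
        have e2 : ¬ j + 4 < m := by
          intro h
          have := P_lt_of h (by omega)
          omega
        have e1 : ¬ m < j + 4 := by
          intro h
          have := hrec m h
          linarith
        have e3 : m = j + 4 := by omega
        subst e3
        linarith
    refine ⟨hnz _, fun x' y' z' h1 h2 => ?_⟩
    rw [abs_of_nonneg (P_nonneg (j + 4))] at h1
    have h2' : F (e1 t x' y') (e2 t x' z') ≤ F (a t (j + 4)) (c t (j + 4)) := h2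
    rcases lt_trichotomy x' 0 with h0 | h0 | h0
    · right; right
      rw [abs_of_neg h0] at h1
      have h3 : F (e1 t (-x') (-y')) (e2 t (-x') (-z')) ≤ F (a t (j + 4)) (c t (j + 4)) := by
        rw [neg_e1, neg_e2, hF.neg]; exact h2'
      have := main (-x') (-y') (-z') (by omega) h1 h3
      exact ⟨by omega, by omega, by omega⟩
    · left
      subst h0
      have h4 := hs.l _ _ (h2'.trans (hm₀ (j + 4) (by omega)))
      unfold e1 e2 at h4
      simp only [Int.cast_zero, zero_mul, zero_sub, abs_neg] at h4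
      have h5 : |y'| < 1 := by exact_mod_cast h4.1
      have h6 : |z'| < 1 := by exact_mod_cast h4.2.1
      rw [Int.abs_lt_one_iff] at h5 h6
      exact ⟨rfl, h5, h6⟩
    · right; left
      rw [abs_of_pos h0] at h1
      exact main x' y' z' h0 h1 h2'

end

end Pool.Agent.R356.Gold
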