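import Mathlib
import Pool.Agent.R356.Gold.Best
import Pool.Agent.H534R3.UD

/-! Equidistribution of the directions of the error vectors of the units. -/

set_option autoImplicit false

open Filter Topology

namespace Pool.Agent.R356.Gold

open Pool.Agent.H534R3.UDist (UD ee Weyl ud_of_weyl norm_ee)

/-- the angle -/
noncomputable def et (t : ℝ) : ℝ := Real.arctan (√(3 * t ^ 2 - 4) / t)

/-- the second angle -/
noncomputable def et2 (t s : ℝ) : ℝ := Real.arctan (√(3 * t ^ 2 - 4) / (2 * s - t))

section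
variable {t : ℝ} (ht : t ^ 3 = t + 1)
include ht

theorem rho_pos : 0 < √(t ^ 2 - 1) := Real.sqrt_pos.2 (by linarith [sq_lo ht])

theorem rho_sq : √(t ^ 2 - 1) ^ 2 = t ^ 2 - 1 := Real.sq_sqrt (by linarith [sq_lo ht])

theorem b_pos : 0 < √(3 * t ^ 2 - 4) := Real.sqrt_pos.2 (by linarith [sq_lo ht])

theorem b_sq : √(3 * t ^ 2 - 4) ^ 2 = 3 * t ^ 2 - 4 := Real.sq_sqrt (by linarith [sq_lo ht])

theorem root_id : √(1 + (√(3 * t ^ 2 - 4) / t) ^ 2) = 2 * √(t ^ 2 - 1) / t := by
  have t0 := t_pos ht
  rw [Real.sqrt_eq_iff_mul_self_eq (by positivity) (by have := rho_pos ht; positivity)]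
  have h1 := rho_sq ht
  have h2 := b_sq ht
  field_simp
  rw [h1, h2]
  ring

theorem cos_et : 2 * √(t ^ 2 - 1) * Real.cos (et t) = t := by
  have t0 := t_pos ht
  have h0 := rho_pos ht
  unfold et
  rw [Real.cos_arctan, root_id ht]
  field_simp

theorem sin_et : 2 * √(t ^ 2 - 1) * Real.sin (et t) = √(3 * t ^ 2 - 4) := by
  have t0 := t_pos ht
  have h0 := rho_pos ht
  unfold et
  rw [Real.sin_arctan, root_id ht]
  field_simp

theorem et_pos : 0 < et t := by
  unfold et
  rw [Real.arctan_pos]
  have := b_pos ht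
  have := t_pos ht
  positivity

omit ht in
theorem et_lt : et t < Real.pi / 2 := Real.arctan_lt_pi_div_two _

omit ht in
theorem et2_lt (s : ℝ) : et2 t s < Real.pi / 2 := Real.arctan_lt_pi_div_two _

theorem et2_pos {s : ℝ} (hs : t < 2 * s) : 0 < et2 t s := by
  unfold et2
  rw [Real.arctan_pos]
  exact div_pos (b_pos ht) (by linarith)

/-- the error vectors of the units in polar form -/
theorem polar (k : ℕ) : ∃ l : ℝ, l ≠ 0 ∧ a t k = l * Real.sin (k * et t) ∧
    c t k = l * (√(t ^ 2 - 1) * Real.sin (k * et t - et t)) := by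
  have h0 := rho_pos ht
  have hc := cos_et ht
  have hs := sin_et ht
  have hb := b_pos ht
  have hsp : 0 < Real.sin (et t) := by
    by_contra h
    push Not at h
    have : 2 * √(t ^ 2 - 1) * Real.sin (et t) ≤ 0 :=
      mul_nonpos_of_nonneg_of_nonpos (by positivity) h
    linarith
  induction k with
  | zero =>
    refine ⟨1 / (√(t ^ 2 - 1) * Real.sin (et t)), by positivity, ?_, ?_⟩
    · simp [a, e1, P]
    · simp only [c, e2, P, Nat.cast_zero, zero_mul, zero_sub, Real.sin_neg]
      push_cast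
      field_simp
      ring
  | succ k ih =>
    obtain ⟨l, hl, h1, h2⟩ := ih
    refine ⟨-(√(t ^ 2 - 1) * l), by
      apply neg_ne_zero.2; positivity, ?_, ?_⟩
    · rw [a_succ, h1, h2]
      have e : ((k + 1 : ℕ) : ℝ) * et t = k * et t + et t := by push_cast; ring
      rw [e, Real.sin_add, Real.sin_sub]
      linear_combination (-l * Real.sin (k * et t)) * (-hc)
    · rw [c_succ ht, h1]
      have e : ((k + 1 : ℕ) : ℝ) * et t - et t = k * et t := by push_cast; ring
      rw [e]
      linear_combination (l * Real.sin (k * et t)) * rho_sq ht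

theorem no_int (h : ℕ) (hh : 1 ≤ h) (n : ℤ) : (h : ℝ) * (et t / Real.pi) ≠ n := by
  intro hcon
  have h1 : (h : ℝ) * et t = n * Real.pi := by
    rw [← hcon]; field_simp
  obtain ⟨l, hl, h2, h3⟩ := polar ht (4 * h)
  have h4 : a t (4 * h) = 0 := by
    rw [h2]
    have : ((4 * h : ℕ) : ℝ) * et t = ((4 * n : ℤ) : ℝ) * Real.pi := by
      push_cast
      linear_combination 4 * h1
    rw [this, Real.sin_int_mul_pi, mul_zero]
  obtain ⟨j, hj⟩ : ∃ j, 4 * h = j + 4 := ⟨4 * h - 4, by omega⟩
  rw [hj] at h4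
  exact a_ne ht j h4

/-- the sequence of angles -/
noncomputable def xs (t : ℝ) (k : ℕ) : ℝ := k * (et t / Real.pi)

theorem weyl_xs : Weyl (xs t) := by
  intro h hh
  set z := ee (h * (et t / Real.pi)) with hz
  have hz1 : z ≠ 1 := by
    intro h1
    rw [hz, ee, Complex.exp_eq_one_iff] at h1
    obtain ⟨n, hn⟩ := h1
    have hpi : (2 * Real.pi * Complex.I : ℂ) ≠ 0 := by
      simp [Real.pi_ne_zero]
    have h2 : ((h * (et t / Real.pi) : ℝ) : ℂ) = n := by
      have : (2 * Real.pi * Complex.I : ℂ) * ((h * (et t / Real.pi) : ℝ) : ℂ) =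
          (2 * Real.pi * Complex.I : ℂ) * n := by
        rw [hn]; ring
      exact mul_left_cancel₀ hpi this
    have h3 : (h * (et t / Real.pi) : ℝ) = n := by exact_mod_cast h2
    exact no_int ht h hh n h3
  have h1 : ∀ N : ℕ, ∑ n ∈ Finset.range N, ee (h * xs t n) = (z ^ N - 1) / (z - 1) := by
    intro N
    rw [← geom_sum_eq hz1]
    apply Finset.sum_congr rfl
    intro n _
    rw [hz, ee, ee, ← Complex.exp_nat_mul]
    congr 1
    unfold xs
    push_cast
    ring
  have h2 : ∀ N : ℕ, ‖∑ n ∈ Finset.range N, ee (h * xs t n)‖ ≤ 2 / ‖z - 1‖ := by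
    intro N
    rw [h1, norm_div]
    apply div_le_div_of_nonneg_right _ (norm_nonneg _)
    calc ‖z ^ N - 1‖ ≤ ‖z ^ N‖ + ‖(1 : ℂ)‖ := norm_sub_le _ _
      _ = 2 := by rw [norm_pow, hz, norm_ee, norm_one]; norm_num
  refine squeeze_zero (fun N => by positivity) (fun N => ?_)
    (tendsto_const_div_atTop_nhds_zero_nat (2 / ‖z - 1‖))
  exact div_le_div_of_nonneg_right (h2 N) (Nat.cast_nonneg N)

theorem ud_xs : UD (xs t) := ud_of_weyl _ (weyl_xs ht)

theorem fract_inj {i k : ℕ} (h : Int.fract (xs t i) = Int.fract (xs t k)) : i = k := by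
  rw [Int.fract_eq_fract] at h
  obtain ⟨n, hn⟩ := h
  unfold xs at hn
  by_contra hik
  rcases lt_or_gt_of_ne hik with h1 | h1
  · have := no_int ht (k - i) (by omega) (-n)
    apply this
    push_cast [Nat.cast_sub h1.le]
    linarith
  · have := no_int ht (i - k) (by omega) n
    apply this
    push_cast [Nat.cast_sub h1.le]
    linarith

/-- the record condition in terms of the angle -/
theorem U_iff_fract {s : ℝ} (hs : t < 2 * s) {k : ℕ} (hk : 1 ≤ k) :
    U s (a t k) (c t k) ↔ Int.fract (xs t k) < et t / Real.pi ∨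
      1 - et2 t s / Real.pi < Int.fract (xs t k) := by
  have hpi := Real.pi_pos
  have t0 := t_pos ht
  have hρ := rho_pos ht
  have hcos := cos_et ht
  have hsin := sin_et ht
  obtain ⟨l, hl, h1, h2⟩ := polar ht k
  set f := Int.fract (xs t k) with hf
  set χ := Real.pi * f with hχ
  have hf0 : 0 < f := by
    rcases (Int.fract_nonneg (xs t k)).lt_or_eq with h | h
    · exact h
    · exfalso
      have h0 : Int.fract (xs t 0) = Int.fract (xs t k) := by
        rw [← h]; simp [xs]
      have := fract_inj ht h0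
      omega
  have hf1 : f < 1 := Int.fract_lt_one _
  have hχ0 : 0 < χ := by positivity
  have hχ1 : χ < Real.pi := by rw [hχ]; nlinarith
  have e1 : (k : ℝ) * et t = χ + (⌊xs t k⌋ : ℝ) * Real.pi := by
    have h3 : xs t k = ⌊xs t k⌋ + f := (Int.floor_add_fract _).symm
    have h4 : (k : ℝ) * et t = Real.pi * xs t k := by
      unfold xs; field_simp
    rw [h4]
    nth_rewrite 1 [h3]
    rw [hχ]; ring
  have e2 : (k : ℝ) * et t - et t = (χ - et t) + (⌊xs t k⌋ : ℝ) * Real.pi := by
    rw [e1]; ring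
  rw [e2, Real.sin_add_int_mul_pi] at h2
  rw [e1, Real.sin_add_int_mul_pi] at h1
  obtain ⟨m, hm, h1', h2'⟩ : ∃ m : ℝ, m ≠ 0 ∧ a t k = m * Real.sin χ ∧
      c t k = m * (√(t ^ 2 - 1) * Real.sin (χ - et t)) := by
    refine ⟨l * (-1) ^ ⌊xs t k⌋, mul_ne_zero hl (zpow_ne_zero _ (by norm_num)), ?_, ?_⟩
    · rw [h1]; ring
    · rw [h2]; ring
  have hsχ : 0 < Real.sin χ := Real.sin_pos_of_pos_of_lt_pi hχ0 hχ1
  have hm2 : 0 < m ^ 2 := by positivity
  have hmp : 0 < |m| := abs_pos.2 hm
  have i1 : f < et t / Real.pi ↔ χ < et t := by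
    rw [lt_div_iff₀ hpi, hχ, mul_comm]
  have i2 : 1 - et2 t s / Real.pi < f ↔ Real.pi < χ + et2 t s := by
    rw [hχ]
    constructor
    · intro h
      have := mul_lt_mul_of_pos_left h hpi
      rw [mul_sub, mul_one, mul_div_cancel₀ _ hpi.ne'] at this
      linarith
    · intro h
      have : Real.pi * (1 - et2 t s / Real.pi) < Real.pi * f := by
        rw [mul_sub, mul_one, mul_div_cancel₀ _ hpi.ne']
        linarith
      exact lt_of_mul_lt_mul_left this hpi.le
  rw [i1, i2]
  have het := et_pos ht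
  have het' := et_lt (t := t)
  have het2 := et2_pos ht hs
  have het2' := et2_lt (t := t) s
  have hprod : a t k * c t k = m ^ 2 * √(t ^ 2 - 1) * (Real.sin χ * Real.sin (χ - et t)) := by
    rw [h1', h2']; ring
  rcases lt_trichotomy χ (et t) with h | h | h
  · have h3 : Real.sin (χ - et t) < 0 := Real.sin_neg_of_neg_of_neg_pi_lt (by linarith) (by linarith)
    refine iff_of_true ?_ (Or.inl h)
    left
    rw [hprod]
    exact mul_neg_of_pos_of_neg (by positivity) (mul_neg_of_pos_of_neg hsχ h3)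
  · refine iff_of_false ?_ ?_
    · unfold U
      rw [hprod, h1', h2', h]
      simp only [sub_self, Real.sin_zero, mul_zero, lt_self_iff_false, abs_zero, false_or, not_lt]
      have : 0 ≤ s := by linarith
      positivity
    · rintro (h3 | h3) <;> linarith
  · have h3 : 0 < Real.sin (χ - et t) := Real.sin_pos_of_pos_of_lt_pi (by linarith) (by linarith)
    have h4 : ¬ (a t k * c t k < 0) := by
      rw [hprod]
      push Not
      positivity
    have h5 : U s (a t k) (c t k) ↔ s * Real.sin χ < √(t ^ 2 - 1) * Real.sin (χ - et t) := by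
      unfold U
      rw [or_iff_right h4, h1', h2', abs_mul, abs_mul, abs_of_pos hsχ,
        abs_of_pos (mul_pos hρ h3)]
      constructor
      · intro h
        have : |m| * (s * Real.sin χ) < |m| * (√(t ^ 2 - 1) * Real.sin (χ - et t)) := by linarith
        exact lt_of_mul_lt_mul_left this hmp.le
      · intro h
        have := mul_lt_mul_of_pos_left h hmp
        linarith
    have h6 : √(t ^ 2 - 1) * Real.sin (χ - et t) =
        (t / 2) * Real.sin χ - √(3 * t ^ 2 - 4) / 2 * Real.cos χ := by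
      rw [Real.sin_sub]
      linear_combination (Real.sin χ / 2) * hcos - (Real.cos χ / 2) * hsin
    have hb := b_pos ht
    have hR : 0 < √(1 + (√(3 * t ^ 2 - 4) / (2 * s - t)) ^ 2) := by positivity
    have h2s : 0 < 2 * s - t := by linarith
    have h7 : Real.sin (χ + et2 t s) = (Real.sin χ * (2 * s - t) + Real.cos χ * √(3 * t ^ 2 - 4)) /
        ((2 * s - t) * √(1 + (√(3 * t ^ 2 - 4) / (2 * s - t)) ^ 2)) := by
      rw [Real.sin_add]
      unfold et2
      rw [Real.sin_arctan, Real.cos_arctan]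
      field_simp
    have h8 : s * Real.sin χ < √(t ^ 2 - 1) * Real.sin (χ - et t) ↔ Real.sin (χ + et2 t s) < 0 := by
      rw [h6, h7, div_lt_iff₀ (mul_pos h2s hR), zero_mul]
      constructor
      · intro h; linarith
      · intro h; linarith
    rw [h5, h8, or_iff_right (by linarith : ¬ χ < et t)]
    constructor
    · intro h9
      by_contra h10
      push Not at h10
      have := Real.sin_nonneg_of_nonneg_of_le_pi (by linarith : 0 ≤ χ + et2 t s) h10
      linarith
    · intro h9
      have h10 : Real.sin (χ + et2 t s - 2 * Real.pi) < 0 :=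
        Real.sin_neg_of_neg_of_neg_pi_lt (by linarith) (by linarith)
      rwa [Real.sin_sub_two_pi] at h10

end

end Pool.Agent.R356.Gold
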