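import Mathlib
import Pool.Agent.R356.Gold.Eq

/-! Growth of the best approximations. -/

set_option autoImplicit false

open Filter Topology

namespace Pool.Agent.R356.Gold

open Pool.Agent.H534R3.UDist (UD ee Weyl ud_of_weyl norm_ee)

/-- the set of denominators of best approximation vectors -/
def Den (N : ℝ → ℝ → ℝ) (θ₁ θ₂ : ℝ) : Set ℕ :=
  {m | ∃ x y z : ℤ, IsBest N θ₁ θ₂ x y z ∧ x.natAbs = m}

section
variable {t : ℝ} (ht : t ^ 3 = t + 1)
include ht

open Classical in
theorem dens {s : ℝ} (hs : t < 2 * s) :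
    Tendsto (fun N : ℕ => (Nat.count (fun k => U s (a t k) (c t k)) N : ℝ) / N) atTop
      (𝓝 (et t / Real.pi + et2 t s / Real.pi)) := by
  have hpi := Real.pi_pos
  have het := et_pos ht
  have het' := et_lt (t := t)
  have het2 := et2_pos ht hs
  have het2' := et2_lt (t := t) s
  set τ := et t / Real.pi with hτ
  set τ2 := et2 t s / Real.pi with hτ2
  have h1 : 0 < τ := by positivity
  have h2 : 0 < τ2 := by positivity
  have h3 : τ < 1 / 2 := by rw [hτ, div_lt_iff₀ hpi]; linarith
  have h4 : τ2 < 1 / 2 := by rw [hτ2, div_lt_iff₀ hpi]; linarith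
  have hA := ud_xs ht 0 τ le_rfl h1.le (by linarith)
  have hB := ud_xs ht (1 - τ2) 1 (by linarith) (by linarith) le_rfl
  have hAB := hA.add hB
  have e0 : τ - 0 + (1 - (1 - τ2)) = τ + τ2 := by ring
  rw [e0] at hAB
  have key : ∀ N : ℕ, |(Nat.count (fun k => U s (a t k) (c t k)) N : ℝ) / N -
      ((((Finset.range N).filter (fun n => 0 ≤ Int.fract (xs t n) ∧ Int.fract (xs t n) < τ)).card : ℝ)
        / (N : ℝ) + (((Finset.range N).filter (fun n => 1 - τ2 ≤ Int.fract (xs t n) ∧
          Int.fract (xs t n) < 1)).card : ℝ) / (N : ℝ))| ≤ 2 / N := by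
    intro N
    rw [← add_div, ← sub_div, abs_div, abs_of_nonneg (Nat.cast_nonneg N : (0 : ℝ) ≤ N)]
    apply div_le_div_of_nonneg_right _ (Nat.cast_nonneg N)
    set FU := (Finset.range N).filter (fun k => U s (a t k) (c t k)) with hFU
    set FA := (Finset.range N).filter
      (fun n => 0 ≤ Int.fract (xs t n) ∧ Int.fract (xs t n) < τ) with hFA
    set FB := (Finset.range N).filter (fun n => 1 - τ2 ≤ Int.fract (xs t n) ∧
          Int.fract (xs t n) < 1) with hFB
    have c1 : Nat.count (fun k => U s (a t k) (c t k)) N = FU.card :=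
      Nat.count_eq_card_filter_range _ _
    set FC := (Finset.range N).filter (fun n => Int.fract (xs t n) = 1 - τ2) with hFC
    have c2 : FC.card ≤ 1 := by
      rw [Finset.card_le_one]
      intro i hi j hj
      rw [hFC, Finset.mem_filter] at hi hj
      exact fract_inj ht (hi.2.trans hj.2.symm)
    have c3 : FU ⊆ (FA ∪ FB) ∪ {0} := by
      intro k hk
      rw [hFU, Finset.mem_filter] at hk
      rcases Nat.eq_zero_or_pos k with h0 | h0
      · rw [h0]; simp
      · have := (U_iff_fract ht hs h0).1 hk.2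
        rw [Finset.mem_union, Finset.mem_union]
        left
        rcases this with h | h
        · left; rw [hFA, Finset.mem_filter]; exact ⟨hk.1, Int.fract_nonneg _, h⟩
        · right; rw [hFB, Finset.mem_filter]; exact ⟨hk.1, h.le, Int.fract_lt_one _⟩
    have c4 : FA ∪ FB ⊆ (FU ∪ {0}) ∪ FC := by
      intro k hk
      rw [Finset.mem_union] at hk
      have hkN : k ∈ Finset.range N := by
        rcases hk with hk | hk
        · exact (Finset.mem_filter.1 hk).1
        · exact (Finset.mem_filter.1 hk).1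
      rcases Nat.eq_zero_or_pos k with h0 | h0
      · rw [h0]; simp
      · rw [Finset.mem_union, Finset.mem_union]
        rcases hk with hk | hk
        · left; left
          rw [hFA, Finset.mem_filter] at hk
          rw [hFU, Finset.mem_filter]
          exact ⟨hkN, (U_iff_fract ht hs h0).2 (Or.inl hk.2.2)⟩
        · rw [hFB, Finset.mem_filter] at hk
          rcases hk.2.1.lt_or_eq with h | h
          · left; left
            rw [hFU, Finset.mem_filter]
            exact ⟨hkN, (U_iff_fract ht hs h0).2 (Or.inr h)⟩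
          · right
            rw [hFC, Finset.mem_filter]
            exact ⟨hkN, h.symm⟩
    have c5 : Disjoint FA FB := by
      rw [Finset.disjoint_left]
      intro k hk hk'
      rw [hFA, Finset.mem_filter] at hk
      rw [hFB, Finset.mem_filter] at hk'
      linarith [hk.2.2, hk'.2.1]
    have c6 := Finset.card_union_of_disjoint c5
    have c7 : FU.card ≤ FA.card + FB.card + 1 := by
      calc FU.card ≤ ((FA ∪ FB) ∪ {0}).card := Finset.card_le_card c3
        _ ≤ (FA ∪ FB).card + ({0} : Finset ℕ).card := Finset.card_union_le _ _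
        _ = _ := by rw [c6]; simp
    have c8 : FA.card + FB.card ≤ FU.card + 2 := by
      calc FA.card + FB.card = (FA ∪ FB).card := c6.symm
        _ ≤ ((FU ∪ {0}) ∪ FC).card := Finset.card_le_card c4
        _ ≤ (FU ∪ {0}).card + FC.card := Finset.card_union_le _ _
        _ ≤ (FU.card + ({0} : Finset ℕ).card) + 1 := by
          apply add_le_add (Finset.card_union_le _ _) c2
        _ = _ := by simp
    rw [c1, abs_le]
    have c7' : (FU.card : ℝ) ≤ FA.card + FB.card + 1 := by exact_mod_cast c7
    have c8' : (FA.card : ℝ) + FB.card ≤ FU.card + 2 := by exact_mod_cast c8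
    constructor <;> linarith
  have h5 : Tendsto (fun N : ℕ => (Nat.count (fun k => U s (a t k) (c t k)) N : ℝ) / N -
      ((((Finset.range N).filter (fun n => 0 ≤ Int.fract (xs t n) ∧ Int.fract (xs t n) < τ)).card : ℝ)
        / (N : ℝ) + (((Finset.range N).filter (fun n => 1 - τ2 ≤ Int.fract (xs t n) ∧
          Int.fract (xs t n) < 1)).card : ℝ) / (N : ℝ))) atTop (𝓝 0) :=
    squeeze_zero_norm (fun N => key N) (tendsto_const_div_atTop_nhds_zero_nat 2)
  have h6 := h5.add hAB
  rw [zero_add] at h6
  refine h6.congr (fun N => ?_)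
  ring

theorem P_log {s : ℝ} {F : ℝ → ℝ → ℝ} (hF : Good t s F) :
    Tendsto (fun k : ℕ => Real.log (P k) / k) atTop (𝓝 (Real.log t)) := by
  have l1 := t_lo ht
  have t0 := t_pos ht
  have s1 := sq_lo ht
  obtain ⟨δ, hδ, hs⟩ := exists_sm hF
  obtain ⟨m₀, hm₀⟩ := tend_unit ht hF hδ
  have hd : 0 < 3 * t ^ 2 - 1 := by linarith
  have h1 : Tendsto (fun k : ℕ => (t * a t k + c t k) / t ^ k) atTop (𝓝 0) := by
    have h2 : Tendsto (fun k : ℕ => 2 / t ^ k) atTop (𝓝 0) :=
      Tendsto.const_div_atTop (tendsto_pow_atTop_atTop_of_one_lt (by linarith)) 2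
    refine squeeze_zero_norm' ?_ h2
    filter_upwards [eventually_ge_atTop m₀] with k hk
    have h3 := (hs.l _ _ (hm₀ k hk)).2.2
    rw [Real.norm_eq_abs, abs_div, abs_of_pos (pow_pos t0 k)]
    exact div_le_div_of_nonneg_right h3 (pow_pos t0 k).le
  have h2 : Tendsto (fun k : ℕ => (P k : ℝ) / t ^ k) atTop (𝓝 (1 / (3 * t ^ 2 - 1))) := by
    have h3 : Tendsto (fun k : ℕ => (1 + (t * a t k + c t k) / t ^ k) / (3 * t ^ 2 - 1)) atTop
        (𝓝 ((1 + 0) / (3 * t ^ 2 - 1))) := (h1.const_add 1).div_const _
    rw [add_zero] at h3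
    refine h3.congr (fun k => ?_)
    have h4 := al_unit ht k
    rw [al_eq] at h4
    change (P k : ℝ) * (3 * t ^ 2 - 1) - (t * a t k + c t k) = t ^ k at h4
    have h5 : (P k : ℝ) * (3 * t ^ 2 - 1) = t ^ k + (t * a t k + c t k) := by linarith
    have h6 : t ^ k ≠ 0 := (pow_pos t0 k).ne'
    have h7 : 1 + (t * a t k + c t k) / t ^ k = P k * (3 * t ^ 2 - 1) / t ^ k := by
      rw [h5]
      field_simp
    rw [h7, div_right_comm, mul_div_cancel_right₀ _ hd.ne']
  have h3 : Tendsto (fun k : ℕ => Real.log ((P k : ℝ) / t ^ k)) atTop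
      (𝓝 (Real.log (1 / (3 * t ^ 2 - 1)))) := by
    refine Tendsto.log h2 ?_
    positivity
  have h4 : Tendsto (fun k : ℕ => Real.log ((P k : ℝ) / t ^ k) / k) atTop (𝓝 0) :=
    h3.div_atTop tendsto_natCast_atTop_atTop
  have h5 := h4.const_add (Real.log t)
  rw [add_zero] at h5
  refine h5.congr' ?_
  filter_upwards [eventually_ge_atTop 4] with k hk
  have h6 : (0 : ℝ) < P k := by
    have := P_pos (k - 4)
    rw [show k - 4 + 4 = k by omega] at this
    exact_mod_cast (by omega : 0 < P k)
  have hk0 : (k : ℝ) ≠ 0 := by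
    have : k ≠ 0 := by omega
    exact_mod_cast this
  rw [Real.log_div h6.ne' (pow_pos t0 k).ne', Real.log_pow]
  field_simp
  ring

open Classical in
theorem growth {s : ℝ} {F : ℝ → ℝ → ℝ} (hF : Good t s F) (hs : t < 2 * s) :
    (Den F t (t ^ 2)).Infinite ∧
    Tendsto (fun n : ℕ => (Nat.nth (· ∈ Den F t (t ^ 2)) n : ℝ) ^ (1 / ((n : ℝ) + 1))) atTop
      (𝓝 (t ^ (1 / (et t / Real.pi + et2 t s / Real.pi)))) := by
  have hpi := Real.pi_pos
  have l1 := t_lo ht
  have t0 := t_pos ht
  have het := et_pos ht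
  have het2 := et2_pos ht hs
  obtain ⟨K, hK9, hA, hB⟩ := structure_thm ht hF
  set S := Den F t (t ^ 2) with hS
  set R : ℕ → Prop := fun k => U s (a t k) (c t k) with hR
  set μ := et t / Real.pi + et2 t s / Real.pi with hμ
  have hμ0 : 0 < μ := by positivity
  have hdens : Tendsto (fun N : ℕ => (Nat.count R N : ℝ) / N) atTop (𝓝 μ) := dens ht hs
  -- p k
  set p : ℕ → ℕ := fun k => (P k).toNat with hp
  have hpP : ∀ k, ((p k : ℕ) : ℤ) = P k := fun k => Int.toNat_of_nonneg (P_nonneg k)
  have hplt : ∀ {m k : ℕ}, m < k → 9 ≤ k → p m < p k := by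
    intro m k h h'
    have := P_lt_of h h'
    rw [← hpP, ← hpP] at this
    exact_mod_cast this
  -- membership
  have hmem : ∀ n : ℕ, p K ≤ n → (n ∈ S ↔ ∃ k ≥ K, p k = n ∧ R k) := by
    intro n hn
    constructor
    · rintro ⟨x, y, z, hb, hx⟩
      have h1 : |x| = (n : ℤ) := by rw [← hx, Int.abs_eq_natAbs]
      have h2 : P K ≤ |x| := by
        rw [h1, ← hpP]; exact_mod_cast hn
      obtain ⟨k, hk, h3, h4⟩ := hA x y z hb h2
      refine ⟨k, hk, ?_, h4⟩
      rw [h1, ← hpP] at h3
      exact_mod_cast h3.symm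
    · rintro ⟨k, hk, h1, h2⟩
      refine ⟨P k, P (k + 1), P (k + 2), hB k hk h2, ?_⟩
      rw [← h1, ← hpP]; simp
  -- counting
  have hcount : ∀ j : ℕ, Nat.count (· ∈ S) (p (K + j)) + Nat.count R K =
      Nat.count (· ∈ S) (p K) + Nat.count R (K + j) := by
    intro j
    induction j with
    | zero => simp
    | succ j ih =>
      have h1 : p (K + j) < p (K + (j + 1)) := hplt (by omega) (by omega)
      have hKj : p K ≤ p (K + j) := by
        rcases Nat.eq_zero_or_pos j with h | h
        · rw [h]; simp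
        · exact (hplt (show K < K + j by omega) (by omega)).le
      have h2 : Nat.count (· ∈ S) (p (K + (j + 1))) =
          Nat.count (· ∈ S) (p (K + j)) + (if R (K + j) then 1 else 0) := by
        obtain ⟨d, hd⟩ : ∃ d, p (K + (j + 1)) = (p (K + j) + 1) + d := ⟨_, (Nat.add_sub_cancel' h1).symm⟩
        rw [hd, Nat.count_add, Nat.count_succ]
        have h3 : Nat.count (fun k => p (K + j) + 1 + k ∈ S) d = 0 := by
          rw [Nat.count_eq_card_filter_range, Finset.card_eq_zero, Finset.filter_eq_empty_iff]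
          intro i hi hmS
          rw [Finset.mem_range] at hi
          obtain ⟨k, hk, h4, h5⟩ := (hmem _ (by omega)).1 hmS
          have h6 : ¬ k ≤ K + j := by
            intro h
            rcases h.lt_or_eq with h | h
            · have := hplt h (by omega)
              omega
            · rw [h] at h4; omega
          have h7 : ¬ K + (j + 1) ≤ k := by
            intro h
            rcases h.lt_or_eq with h | h
            · have := hplt h (by omega)
              omega
            · rw [← h] at h4; omega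
          omega
        rw [h3, add_zero]
        congr 1
        have h8 : p (K + j) ∈ S ↔ R (K + j) := by
          rw [hmem _ hKj]
          constructor
          · rintro ⟨k, hk, h4, h5⟩
            have : k = K + j := by
              by_contra hne
              rcases lt_or_gt_of_ne hne with h | h
              · have := hplt h (by omega)
                omega
              · have := hplt h (by omega)
                omega
            rwa [this] at h5
          · intro h
            exact ⟨K + j, by omega, rfl, h⟩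
        simp only [h8]
      rw [h2, show K + (j + 1) = (K + j) + 1 by ring, Nat.count_succ]
      omega
  -- R is infinite
  have hcR : Tendsto (fun n : ℕ => (Nat.count R n : ℝ)) atTop atTop := by
    have h1 : Tendsto (fun n : ℕ => (Nat.count R n : ℝ) / n * n) atTop atTop :=
      Tendsto.pos_mul_atTop hμ0 hdens tendsto_natCast_atTop_atTop
    refine h1.congr' ?_
    filter_upwards [eventually_gt_atTop 0] with n hn
    have : (n : ℝ) ≠ 0 := by exact_mod_cast hn.ne'
    field_simp
  have hinf : S.Infinite := by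
    intro hfin
    obtain ⟨B, hB'⟩ : ∃ B : ℕ, ∀ n, Nat.count (· ∈ S) n ≤ B := by
      refine ⟨hfin.toFinset.card, fun n => ?_⟩
      rw [Nat.count_eq_card_filter_range]
      apply Finset.card_le_card
      intro i hi
      rw [Finset.mem_filter] at hi
      exact hfin.mem_toFinset.2 hi.2
    obtain ⟨N, hN⟩ := (hcR.eventually_gt_atTop ((B : ℝ) + Nat.count R K)).exists_forall_of_atTop
    have h1 := hN (K + N) (by omega)
    have h2 := hcount N
    have h3 := hB' (p (K + N))
    have h4 : (Nat.count R (K + N) : ℝ) ≤ B + Nat.count R K := by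
      exact_mod_cast (by omega : Nat.count R (K + N) ≤ B + Nat.count R K)
    linarith
  refine ⟨hinf, ?_⟩
  -- the index function
  have hidx : ∀ n : ℕ, Nat.count (· ∈ S) (p K) ≤ n → ∃ j : ℕ, Nat.nth (· ∈ S) n = p (K + j) ∧
      n + Nat.count R K = Nat.count (· ∈ S) (p K) + Nat.count R (K + j) := by
    intro n hn
    have h1 : Nat.nth (· ∈ S) n ∈ S := Nat.nth_mem_of_infinite hinf n
    have h2 : Nat.count (· ∈ S) (Nat.nth (· ∈ S) n) = n := Nat.count_nth_of_infinite hinf n
    have h3 : p K ≤ Nat.nth (· ∈ S) n := by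
      by_contra h
      push Not at h
      have h5 : Nat.count (· ∈ S) (Nat.nth (· ∈ S) n + 1) ≤ Nat.count (· ∈ S) (p K) :=
        Nat.count_monotone _ h
      rw [Nat.count_succ, h2, if_pos h1] at h5
      omega
    obtain ⟨k, hk, h4, h5⟩ := (hmem _ h3).1 h1
    obtain ⟨j, rfl⟩ : ∃ j, k = K + j := ⟨k - K, by omega⟩
    refine ⟨j, h4.symm, ?_⟩
    rw [← hcount j, h4, h2]
  choose! J hJ1 hJ2 using hidx
  have hJ : Tendsto (fun n => K + J n) atTop atTop := by
    rw [tendsto_atTop]
    intro B
    filter_upwards [eventually_ge_atTop (Nat.count (· ∈ S) (p K)),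
      eventually_ge_atTop (B + Nat.count (· ∈ S) (p K))] with n hn hn2
    have h1 := hJ2 n hn
    have h2 : Nat.count R (K + J n) ≤ K + J n := Nat.count_le _
    omega
  -- the limit
  have hf := P_log ht hF
  have hg : Tendsto (fun k : ℕ => ((Nat.count R k : ℝ) + ((Nat.count (· ∈ S) (p K) : ℝ) -
      Nat.count R K + 1)) / k) atTop (𝓝 μ) := by
    have h1 := hdens.add (tendsto_const_div_atTop_nhds_zero_nat
      ((Nat.count (· ∈ S) (p K) : ℝ) - Nat.count R K + 1))
    rw [add_zero] at h1
    refine h1.congr (fun k => ?_)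
    exact (add_div _ _ _).symm
  have hfg : Tendsto (fun k : ℕ => (Real.log (P k) / k) / (((Nat.count R k : ℝ) +
      ((Nat.count (· ∈ S) (p K) : ℝ) - Nat.count R K + 1)) / k)) atTop (𝓝 (Real.log t / μ)) :=
    hf.div hg hμ0.ne'
  have hcomp := hfg.comp hJ
  have hexp := (Real.continuous_exp.tendsto _).comp hcomp
  have e1 : Real.exp (Real.log t / μ) = t ^ (1 / μ) := by
    rw [Real.rpow_def_of_pos t0]; congr 1; ring
  rw [e1] at hexp
  refine hexp.congr' ?_
  filter_upwards [eventually_ge_atTop (Nat.count (· ∈ S) (p K))] with n hn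
  have h1 := hJ1 n hn
  have h2 := hJ2 n hn
  set k := K + J n with hk
  have hk9 : 9 ≤ k := by omega
  have hPk : (0 : ℝ) < P k := by
    have := P_pos (k - 4)
    rw [show k - 4 + 4 = k by omega] at this
    exact_mod_cast (by omega : 0 < P k)
  have h3 : ((Nat.nth (· ∈ S) n : ℕ) : ℝ) = (P k : ℝ) := by
    rw [h1]
    exact_mod_cast hpP k
  rw [h3, Real.rpow_def_of_pos hPk]
  simp only [Function.comp_apply]
  congr 1
  have h4 : (n : ℝ) + Nat.count R K = Nat.count (· ∈ S) (p K) + Nat.count R k := by
    exact_mod_cast h2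
  have h5 : (Nat.count R k : ℝ) + ((Nat.count (· ∈ S) (p K) : ℝ) - Nat.count R K + 1) = n + 1 := by
    linarith
  rw [← hk, h5]
  have hk0 : (k : ℝ) ≠ 0 := by
    have : k ≠ 0 := by omega
    exact_mod_cast this
  have hn0 : (n : ℝ) + 1 ≠ 0 := by positivity
  field_simp

end

end Pool.Agent.R356.Gold
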