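import Mathlib
import Pool.Agent.R356.Gold.Grow

/-! The best approximations of `(φ, φ²)` for the adapted norm. -/

set_option autoImplicit false

open Filter Topology

namespace Pool.Agent.R356.Gold

section
variable {t : ℝ} (ht : t ^ 3 = t + 1)
include ht

theorem q_nonneg (u w : ℝ) : 0 ≤ q t u w := by
  have s1 := sq_lo ht
  unfold q
  nlinarith [sq_nonneg (w - t * u / 2), mul_nonneg (by linarith : (0:ℝ) ≤ 3 * t ^ 2 / 4 - 1) (sq_nonneg u)]

theorem q_pos {u w : ℝ} (hu : u ≠ 0) : 0 < q t u w := by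
  have s1 := sq_lo ht
  unfold q
  have : 0 < u ^ 2 := by positivity
  nlinarith [sq_nonneg (w - t * u / 2), mul_pos (by linarith : (0:ℝ) < 3 * t ^ 2 / 4 - 1) this]

theorem lin_sq (u w : ℝ) : (t * u + w) ^ 2 ≤ 14 * q t u w := by
  have s1 := sq_lo ht
  unfold q
  nlinarith [sq_nonneg (13 * w - 8 * t * u),
    mul_nonneg (by linarith : (0:ℝ) ≤ 105 * t ^ 2 - 182) (sq_nonneg u)]

theorem u_sq (u w : ℝ) : u ^ 2 ≤ 4 * q t u w := by
  have s1 := sq_lo ht
  unfold q
  nlinarith [sq_nonneg (w - t * u / 2), sq_nonneg u]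

theorem w_sq (u w : ℝ) : w ^ 2 ≤ 4 * q t u w := by
  have s1 := sq_lo ht
  have s2 := sq_hi ht
  unfold q
  nlinarith [sq_nonneg (w - t * u * (2 / 3)), sq_nonneg u, sq_nonneg w]

theorem pow28 : (14000 : ℝ) / 7 ≤ t ^ 28 := by
  have l1 := t_lo ht
  calc (14000 : ℝ) / 7 ≤ (1.32471 : ℝ) ^ 28 := by norm_num
    _ ≤ t ^ 28 := by gcongr

/-- `q ≤ t^{-m}`, `m ≥ 27`, gives a small linear form -/
theorem lin_small {u w : ℝ} {m : ℕ} (hm : 27 ≤ m) (h : q t u w ≤ 1 / t ^ m) :
    |t * u + w| ≤ 0.1 ∧ |u| < 1 ∧ |w| < 1 := by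
  have l1 := t_lo ht
  have l2 := t_hi ht
  have t0 := t_pos ht
  have h1 := pow28 ht
  have h2 : (1500 : ℝ) ≤ t ^ m := by
    have h3 : t ^ 27 ≤ t ^ m := pow_le_pow_right₀ (by linarith) hm
    have h4 : t ^ 28 = t ^ 27 * t := pow_succ _ _
    nlinarith [pow_pos t0 27]
  have h3 : q t u w ≤ 1 / 1500 := h.trans (one_div_le_one_div_of_le (by norm_num) h2)
  have h4 := lin_sq ht u w
  have h5 := u_sq ht u w
  have h6 := w_sq ht u w
  refine ⟨?_, ?_, ?_⟩
  · apply abs_le_of_sq_le_sq _ (by norm_num)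
    linarith
  · apply abs_lt_of_sq_lt_sq _ (by norm_num)
    linarith
  · apply abs_lt_of_sq_lt_sq _ (by norm_num)
    linarith

theorem q_unit' (k : ℕ) : q t (a t k) (c t k) = 1 / t ^ k := by
  have h := q_unit ht k
  have t0 := t_pos ht
  rw [eq_div_iff (by positivity)]
  linarith

/-- an element of norm `1` with `t^m ≤ α < t^{m+1}` is `t^m` -/
theorem unit_of {x y z : ℤ} {m : ℕ} (h1 : t ^ (m + 1) ≤ al t x y z) (h2 : al t x y z < t ^ (m + 2))
    (hN : Nm x y z = 1) : x = P (m + 1) ∧ y = P (m + 2) ∧ z = P (m + 3) := by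
  have t0 := t_pos ht
  obtain ⟨x', y', z', e1, e2, e3, e4⟩ := dec m x y z
  have h3 := al_dec ht m x' y' z'
  rw [← e1, ← e2, ← e3] at h3
  have hp : 0 < t ^ (m + 1) := by positivity
  have h4 : 1 ≤ al t x' y' z' := by
    rw [h3] at h1
    by_contra hcon
    push Not at hcon
    nlinarith
  have h5 : al t x' y' z' < t := by
    rw [h3, pow_succ t (m + 1)] at h2
    exact lt_of_mul_lt_mul_left h2 hp.le
  have h6 := cls ht h4 h5 (by rw [e4, hN]; norm_num)
  rw [hN] at e4
  rcases h6 with ⟨rfl, rfl, rfl⟩ | ⟨rfl, rfl, rfl⟩ | ⟨rfl, rfl, rfl⟩ | ⟨rfl, rfl, rfl⟩ |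
    ⟨rfl, rfl, rfl⟩ | ⟨rfl, rfl, rfl⟩
  · refine ⟨?_, ?_, ?_⟩
    · rw [e1]; ring
    · rw [e2]; ring
    · rw [e3]; ring
  · exfalso
    simp [al] at h5
  · exact absurd e4 (by decide)
  · exact absurd e4 (by decide)
  · exact absurd e4 (by decide)
  · exact absurd e4 (by decide)

theorem nm_ge {x y z : ℤ} (hx : x ≠ 0) (hal : 0 < al t x y z) : 1 ≤ Nm x y z := by
  have h1 := norm_eq ht x y z
  have h2 : 0 < q t (e1 t x y) (e2 t x z) := q_pos ht (e1_ne ht hx)
  have h3 : (0 : ℝ) < Nm x y z := by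
    rw [h1]
    positivity
  exact_mod_cast h3

theorem al_P (k : ℕ) : (P k : ℝ) * (3 * t ^ 2 - 1) = t ^ k + (t * a t k + c t k) := by
  have h := al_unit ht k
  rw [al_eq] at h
  change (P k : ℝ) * (3 * t ^ 2 - 1) - (t * a t k + c t k) = t ^ k at h
  linarith

/-- comparison with the adapted form up to a factor `κ < φ` -/
structure Near (t κ : ℝ) (F : ℝ → ℝ → ℝ) : Prop where
  neg : ∀ u w, F (-u) (-w) = F u w
  cmp : ∀ u w u' w', F u w ≤ F u' w' → q t u w ≤ κ * q t u' w'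

/-- the Padovan triples are best approximations -/
theorem ad_best {κ : ℝ} {F : ℝ → ℝ → ℝ} (hF : Near t κ F) (hκ : κ < t) {k : ℕ} (hk : 29 ≤ k) :
    IsBest F t (t ^ 2) (P k) (P (k + 1)) (P (k + 2)) := by
  have l1 := t_lo ht
  have l2 := t_hi ht
  have t0 := t_pos ht
  have s1 := sq_lo ht
  have s2 := sq_hi ht
  have hPk : 1 ≤ P k := by
    have := P_pos (k - 4)
    rwa [show k - 4 + 4 = k by omega] at this
  have hqk := q_unit' ht k
  have hk28 : (2000 : ℝ) ≤ t ^ k := by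
    have h1 := pow28 ht
    have h3 : t ^ 28 ≤ t ^ k := pow_le_pow_right₀ (by linarith) (by omega)
    norm_num at h1
    linarith
  have hsk := (lin_small ht (by omega : 27 ≤ k) hqk.le).1
  rw [abs_le] at hsk
  obtain ⟨j, rfl⟩ : ∃ j, k = j + 2 := ⟨k - 2, by omega⟩
  have hpk : 0 < t ^ (j + 2) := by positivity
  have hκq : ∀ r : ℝ, r ≤ κ * (1 / t ^ (j + 2)) → r ≤ 1 / t ^ (j + 1) := by
    intro r hr
    have e : 1 / t ^ (j + 1) = t * (1 / t ^ (j + 2)) := by
      rw [show j + 2 = (j + 1) + 1 by ring, pow_succ t (j + 1)]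
      field_simp
    rw [e]
    refine hr.trans ?_
    have : 0 ≤ 1 / t ^ (j + 2) := by positivity
    exact mul_le_mul_of_nonneg_right hκ.le this
  have main : ∀ x y z : ℤ, 0 < x → x ≤ P (j + 2) →
      q t (e1 t x y) (e2 t x z) ≤ κ * (1 / t ^ (j + 2)) →
      x = P (j + 2) ∧ y = P (j + 3) ∧ z = P (j + 4) := by
    intro x y z hx hxk hq
    have hs := (lin_small ht (by omega : 27 ≤ j + 1) (hκq _ hq)).1
    rw [abs_le] at hs
    have hal := al_eq (t := t) x y z
    have hx1 : (1 : ℝ) ≤ x := by exact_mod_cast hx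
    have hal0 : 0 < al t x y z := by
      rw [hal]
      nlinarith
    have hN1 := nm_ge ht hx.ne' hal0
    have hN := norm_eq ht x y z
    have hxk' : (x : ℝ) ≤ P (j + 2) := by exact_mod_cast hxk
    have hale : al t x y z ≤ t ^ (j + 2) + 0.2 := by
      have h1 := al_P ht (j + 2)
      have h2 : (x : ℝ) * (3 * t ^ 2 - 1) ≤ P (j + 2) * (3 * t ^ 2 - 1) :=
        mul_le_mul_of_nonneg_right hxk' (by linarith)
      rw [hal]
      linarith [hs.1, hsk.2]
    have hq0 : 0 < q t (e1 t x y) (e2 t x z) := q_pos ht (e1_ne ht hx.ne')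
    have hq1 : q t (e1 t x y) (e2 t x z) ≤ t * (1 / t ^ (j + 2)) := by
      refine hq.trans ?_
      have : 0 ≤ 1 / t ^ (j + 2) := by positivity
      exact mul_le_mul_of_nonneg_right hκ.le this
    have hN2 : (Nm x y z : ℝ) < 2 := by
      rw [hN]
      calc al t x y z * q t (e1 t x y) (e2 t x z)
          ≤ (t ^ (j + 2) + 0.2) * (t * (1 / t ^ (j + 2))) := by gcongr
        _ = t + t * (0.2 / t ^ (j + 2)) := by field_simp
        _ < 2 := by
          have : 0.2 / t ^ (j + 2) ≤ 0.2 / 2000 := by gcongr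
          norm_num at this ⊢
          nlinarith
    have hN3 : Nm x y z < 2 := by exact_mod_cast hN2
    have hN4 : Nm x y z = 1 := by omega
    have halg : t ^ (j + 1) < al t x y z := by
      rw [hN4] at hN
      push_cast at hN
      by_contra hcon
      push Not at hcon
      have h1 : al t x y z * q t (e1 t x y) (e2 t x z) ≤ t ^ (j + 1) * (κ * (1 / t ^ (j + 2))) := by
        gcongr
      have h2 : t ^ (j + 1) * (κ * (1 / t ^ (j + 2))) < t ^ (j + 1) * (t * (1 / t ^ (j + 2))) := by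
        gcongr
      have h3 : t ^ (j + 1) * (t * (1 / t ^ (j + 2))) = 1 := by
        rw [show j + 2 = (j + 1) + 1 by ring, pow_succ t (j + 1)]
        field_simp
      linarith
    rcases lt_or_ge (al t x y z) (t ^ (j + 2)) with h | h
    · exfalso
      have h1 := unit_of ht (m := j) halg.le h hN4
      have h2 := al_unit ht (j + 1)
      rw [show j + 1 + 1 = j + 2 by ring, show j + 1 + 2 = j + 3 by ring, ← h1.1, ← h1.2.1,
        ← h1.2.2] at h2
      linarith
    · exact unit_of ht (m := j + 1) h (by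
        rw [show j + 1 + 2 = (j + 2) + 1 by ring, pow_succ t (j + 2)]
        nlinarith) hN4
  refine ⟨fun h => by omega, ?_⟩
  intro x y z hx hq
  have hq' : q t (e1 t x y) (e2 t x z) ≤ κ * (1 / t ^ (j + 2)) := by
    rw [← hqk]
    exact hF.cmp _ _ _ _ hq
  rw [abs_of_pos (by omega : 0 < P (j + 2))] at hx
  rcases lt_trichotomy x 0 with h | h | h
  · right; right
    have h1 := main (-x) (-y) (-z) (by omega) (by rw [abs_of_neg h] at hx; exact hx) (by
      rw [neg_e1, neg_e2]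
      have : q t (-e1 t x y) (-e2 t x z) = q t (e1 t x y) (e2 t x z) := by unfold q; ring
      rw [this]
      exact hq')
    rw [show j + 2 + 1 = j + 3 by ring, show j + 2 + 2 = j + 4 by ring]
    omega
  · left
    subst h
    have hs := lin_small ht (by omega : 27 ≤ j + 1) (hκq _ hq')
    unfold e1 e2 at hs
    rw [Int.cast_zero, zero_mul, zero_mul, zero_sub, zero_sub, abs_neg, abs_neg] at hs
    have h1 : |y| < 1 := by exact_mod_cast hs.2.1
    have h2 : |z| < 1 := by exact_mod_cast hs.2.2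
    rw [Int.abs_lt_one_iff] at h1 h2
    exact ⟨rfl, h1, h2⟩
  · right; left
    exact main x y z h (by rw [abs_of_pos h] at hx; exact hx) hq'

/-- the best approximations of large denominator are the Padovan triples -/
theorem ad_only {κ : ℝ} {F : ℝ → ℝ → ℝ} (hF : Near t κ F) (hκ : κ < t) {x y z : ℤ}
    (hb : IsBest F t (t ^ 2) x y z) (hx : P 31 ≤ x) :
    ∃ k ≥ 31, x = P k ∧ y = P (k + 1) ∧ z = P (k + 2) := by
  have l1 := t_lo ht
  have l2 := t_hi ht
  have t0 := t_pos ht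
  have s1 := sq_lo ht
  have s2 := sq_hi ht
  have hP30 : 1 ≤ P 31 := P_pos 27
  have hx0 : 0 < x := by omega
  have hnz : ∀ m : ℕ, ¬(P m = 0 ∧ P (m + 1) = 0 ∧ P (m + 2) = 0) := by
    intro m h
    have h1 := al_unit ht m
    rw [h.1, h.2.1, h.2.2] at h1
    have : 0 < t ^ m := by positivity
    simp [al] at h1
    linarith
  have e0 : ∀ m : ℕ, 1 / t ^ m = t * (1 / t ^ (m + 1)) := by
    intro m
    rw [pow_succ t m]
    field_simp
  -- comparison with a Padovan triple
  have cmp : ∀ m : ℕ, P (m + 1) ≤ x → (x = P (m + 1) ∧ y = P (m + 2) ∧ z = P (m + 3)) ∨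
      q t (e1 t x y) (e2 t x z) ≤ 1 / t ^ m := by
    intro m hm
    by_contra hcon
    push Not at hcon
    obtain ⟨h1, h2⟩ := hcon
    have h3 := hb.2 (P (m + 1)) (P (m + 2)) (P (m + 3)) (by
      rw [abs_of_nonneg (P_nonneg _), abs_of_pos hx0]; exact hm) (by
      by_contra hcon2
      push Not at hcon2
      have h4 := hF.cmp _ _ _ _ hcon2.le
      have e : q t ((P (m + 1) : ℝ) * t - (P (m + 2) : ℤ)) ((P (m + 1) : ℝ) * t ^ 2 - (P (m + 3) : ℤ)) =
          1 / t ^ (m + 1) := q_unit' ht (m + 1)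
      rw [e] at h4
      have h5 : κ * (1 / t ^ (m + 1)) ≤ 1 / t ^ m := by
        rw [e0 m]
        have : 0 ≤ 1 / t ^ (m + 1) := by positivity
        exact mul_le_mul_of_nonneg_right hκ.le this
      have h6 : q t (e1 t x y) (e2 t x z) ≤ κ * (1 / t ^ (m + 1)) := h4
      linarith)
    rcases h3 with h3 | h3 | h3
    · exact hnz (m + 1) h3
    · exact h1 h3.1.symm h3.2.1.symm h3.2.2.symm
    · have := P_nonneg (m + 1)
      omega
  rcases cmp 30 hx with h | h
  · exact ⟨31, le_rfl, h⟩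
  have hs := (lin_small ht (by norm_num : 27 ≤ 30) h).1
  rw [abs_le] at hs
  have hal := al_eq (t := t) x y z
  have hx30 : (P 31 : ℝ) ≤ x := by exact_mod_cast hx
  have hs30 := (lin_small ht (by norm_num : 27 ≤ 31) (q_unit' ht 31).le).1
  rw [abs_le] at hs30
  have h30 := al_P ht 31
  have halb : t ^ 31 - 0.2 ≤ al t x y z := by
    have h2 : (P 31 : ℝ) * (3 * t ^ 2 - 1) ≤ x * (3 * t ^ 2 - 1) :=
      mul_le_mul_of_nonneg_right hx30 (by linarith)
    rw [hal]
    linarith [hs.2, hs30.1]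
  have hp29 : (1:ℝ) ≤ t ^ 30 := one_le_pow₀ (by linarith)
  have halc : t ^ 30 < al t x y z := by
    have : t ^ 31 = t ^ 30 * t := pow_succ _ _
    nlinarith
  obtain ⟨m, hm1, hm2⟩ := exists_nat_pow_near (by linarith : (1:ℝ) ≤ al t x y z) (by linarith : 1 < t)
  have hm29 : 30 ≤ m := by
    by_contra hcon
    push Not at hcon
    have : t ^ (m + 1) ≤ t ^ 30 := pow_le_pow_right₀ (by linarith) (by omega)
    linarith
  obtain ⟨j, rfl⟩ : ∃ j, m = j + 1 := ⟨m - 1, by omega⟩
  have hsm := (lin_small ht (by omega : 27 ≤ j + 1) (q_unit' ht (j + 1)).le).1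
  rw [abs_le] at hsm
  have hPm : P (j + 1) ≤ x := by
    have h1 := al_P ht (j + 1)
    have h2 : (P (j + 1) : ℝ) * (3 * t ^ 2 - 1) ≤ x * (3 * t ^ 2 - 1) + 0.2 := by
      rw [hal] at hm1
      linarith [hs.1, hsm.2]
    by_contra hcon
    push Not at hcon
    have h4 : (x : ℝ) + 1 ≤ P (j + 1) := by exact_mod_cast hcon
    have h5 : ((x : ℝ) + 1) * (3 * t ^ 2 - 1) ≤ P (j + 1) * (3 * t ^ 2 - 1) :=
      mul_le_mul_of_nonneg_right h4 (by linarith)
    linarith
  have hm30 : ∀ k : ℕ, x = P k → 31 ≤ k := by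
    intro k hk
    by_contra hcon
    push Not at hcon
    have := P_lt_of hcon (by norm_num)
    omega
  rcases cmp j hPm with h1 | h1
  · exact ⟨j + 1, hm30 _ h1.1, h1⟩
  · have hal0 : 0 < al t x y z := by linarith
    have hN1 := nm_ge ht hx0.ne' hal0
    have hN := norm_eq ht x y z
    have hq0 : 0 < q t (e1 t x y) (e2 t x z) := q_pos ht (e1_ne ht hx0.ne')
    have hpm : 0 < t ^ j := by positivity
    have hN2 : (Nm x y z : ℝ) < 2 := by
      rw [hN]
      calc al t x y z * q t (e1 t x y) (e2 t x z) ≤ t ^ (j + 1 + 1) * (1 / t ^ j) := by gcongr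
        _ = t ^ 2 := by rw [pow_succ, pow_succ]; field_simp
        _ < 2 := by linarith
    have hN3 : Nm x y z < 2 := by exact_mod_cast hN2
    have hN4 : Nm x y z = 1 := by omega
    have h2 := unit_of ht (m := j) hm1 hm2 hN4
    exact ⟨j + 1, hm30 _ h2.1, h2⟩

end

end Pool.Agent.R356.Gold
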