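import Mathlib
import Pool.Agent.R356.Gold.Ad

/-! Growth of the best approximations: general form. -/

set_option autoImplicit false

open Filter Topology

namespace Pool.Agent.R356.Gold

section
variable {t : ℝ} (ht : t ^ 3 = t + 1)
include ht

theorem P_log' : Tendsto (fun k : ℕ => Real.log (P k) / k) atTop (𝓝 (Real.log t)) := by
  have l1 := t_lo ht
  have t0 := t_pos ht
  have s1 := sq_lo ht
  have hd : 0 < 3 * t ^ 2 - 1 := by linarith
  have h1 : Tendsto (fun k : ℕ => (t * a t k + c t k) / t ^ k) atTop (𝓝 0) := by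
    have h2 : Tendsto (fun k : ℕ => 2 / t ^ k) atTop (𝓝 0) :=
      Tendsto.const_div_atTop (tendsto_pow_atTop_atTop_of_one_lt (by linarith)) 2
    refine squeeze_zero_norm' ?_ h2
    filter_upwards [eventually_ge_atTop 27] with k hk
    have h3 := (lin_small ht hk (q_unit' ht k).le).1
    rw [Real.norm_eq_abs, abs_div, abs_of_pos (pow_pos t0 k)]
    exact div_le_div_of_nonneg_right (h3.trans (by norm_num)) (pow_pos t0 k).le
  have h2 : Tendsto (fun k : ℕ => (P k : ℝ) / t ^ k) atTop (𝓝 (1 / (3 * t ^ 2 - 1))) := by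
    have h3 : Tendsto (fun k : ℕ => (1 + (t * a t k + c t k) / t ^ k) / (3 * t ^ 2 - 1)) atTop
        (𝓝 ((1 + 0) / (3 * t ^ 2 - 1))) := (h1.const_add 1).div_const _
    rw [add_zero] at h3
    refine h3.congr (fun k => ?_)
    have h4 := al_unit ht k
    rw [al_eq] at h4
    change (P k : ℝ) * (3 * t ^ 2 - 1) - (t * a t k + c t k) = t ^ k at h4
    have h5 : (P k : ℝ) * (3 * t ^ 2 - 1) = t ^ k + (t * a t k + c t k) := by linarith
    have h6 : t ^ k ≠ 0 := (pow_pos t0 k).ne'
    have h7 : 1 + (t * a t k + c t k) / t ^ k = P k * (3 * t ^ 2 - 1) / t ^ k := by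
      rw [h5]
      field_simp
    rw [h7, div_right_comm, mul_div_cancel_right₀ _ hd.ne']
  have h3 : Tendsto (fun k : ℕ => Real.log ((P k : ℝ) / t ^ k)) atTop
      (𝓝 (Real.log (1 / (3 * t ^ 2 - 1)))) := by
    refine Tendsto.log h2 ?_
    positivity
  have h4 : Tendsto (fun k : ℕ => Real.log ((P k : ℝ) / t ^ k) / k) atTop (𝓝 0) :=
    h3.div_atTop tendsto_natCast_atTop_atTop
  have h5 := h4.const_add (Real.log t)
  rw [add_zero] at h5
  refine h5.congr' ?_
  filter_upwards [eventually_ge_atTop 4] with k hk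
  have h6 : (0 : ℝ) < P k := by
    have := P_pos (k - 4)
    rw [show k - 4 + 4 = k by omega] at this
    exact_mod_cast (by omega : 0 < P k)
  have hk0 : (k : ℝ) ≠ 0 := by
    have : k ≠ 0 := by omega
    exact_mod_cast this
  rw [Real.log_div h6.ne' (pow_pos t0 k).ne', Real.log_pow]
  field_simp
  ring


open Classical in
theorem growth_gen {F : ℝ → ℝ → ℝ} {K : ℕ} (hK9 : 9 ≤ K) (R : ℕ → Prop)
    (hA : ∀ x y z : ℤ, IsBest F t (t ^ 2) x y z → P K ≤ |x| → ∃ k ≥ K, |x| = P k ∧ R k)
    (hB : ∀ k ≥ K, R k → IsBest F t (t ^ 2) (P k) (P (k + 1)) (P (k + 2)))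
    {μ : ℝ} (hμ0 : 0 < μ)
    (hdens : Tendsto (fun N : ℕ => (Nat.count R N : ℝ) / N) atTop (𝓝 μ)) :
    (Den F t (t ^ 2)).Infinite ∧
    Tendsto (fun n : ℕ => (Nat.nth (· ∈ Den F t (t ^ 2)) n : ℝ) ^ (1 / ((n : ℝ) + 1))) atTop
      (𝓝 (t ^ (1 / μ))) := by
  have l1 := t_lo ht
  have t0 := t_pos ht
  set S := Den F t (t ^ 2) with hS
  -- p k
  set p : ℕ → ℕ := fun k => (P k).toNat with hp
  have hpP : ∀ k, ((p k : ℕ) : ℤ) = P k := fun k => Int.toNat_of_nonneg (P_nonneg k)
  have hplt : ∀ {m k : ℕ}, m < k → 9 ≤ k → p m < p k := by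
    intro m k h h'
    have := P_lt_of h h'
    rw [← hpP, ← hpP] at this
    exact_mod_cast this
  -- membership
  have hmem : ∀ n : ℕ, p K ≤ n → (n ∈ S ↔ ∃ k ≥ K, p k = n ∧ R k) := by
    intro n hn
    constructor
    · rintro ⟨x, y, z, hb, hx⟩
      have h1 : |x| = (n : ℤ) := by rw [← hx, Int.abs_eq_natAbs]
      have h2 : P K ≤ |x| := by
        rw [h1, ← hpP]; exact_mod_cast hn
      obtain ⟨k, hk, h3, h4⟩ := hA x y z hb h2
      refine ⟨k, hk, ?_, h4⟩
      rw [h1, ← hpP] at h3
      exact_mod_cast h3.symm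
    · rintro ⟨k, hk, h1, h2⟩
      refine ⟨P k, P (k + 1), P (k + 2), hB k hk h2, ?_⟩
      rw [← h1, ← hpP]; simp
  -- counting
  have hcount : ∀ j : ℕ, Nat.count (· ∈ S) (p (K + j)) + Nat.count R K =
      Nat.count (· ∈ S) (p K) + Nat.count R (K + j) := by
    intro j
    induction j with
    | zero => simp
    | succ j ih =>
      have h1 : p (K + j) < p (K + (j + 1)) := hplt (by omega) (by omega)
      have hKj : p K ≤ p (K + j) := by
        rcases Nat.eq_zero_or_pos j with h | h
        · rw [h]; simp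
        · exact (hplt (show K < K + j by omega) (by omega)).le
      have h2 : Nat.count (· ∈ S) (p (K + (j + 1))) =
          Nat.count (· ∈ S) (p (K + j)) + (if R (K + j) then 1 else 0) := by
        obtain ⟨d, hd⟩ : ∃ d, p (K + (j + 1)) = (p (K + j) + 1) + d := ⟨_, (Nat.add_sub_cancel' h1).symm⟩
        rw [hd, Nat.count_add, Nat.count_succ]
        have h3 : Nat.count (fun k => p (K + j) + 1 + k ∈ S) d = 0 := by
          rw [Nat.count_eq_card_filter_range, Finset.card_eq_zero, Finset.filter_eq_empty_iff]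
          intro i hi hmS
          rw [Finset.mem_range] at hi
          obtain ⟨k, hk, h4, h5⟩ := (hmem _ (by omega)).1 hmS
          have h6 : ¬ k ≤ K + j := by
            intro h
            rcases h.lt_or_eq with h | h
            · have := hplt h (by omega)
              omega
            · rw [h] at h4; omega
          have h7 : ¬ K + (j + 1) ≤ k := by
            intro h
            rcases h.lt_or_eq with h | h
            · have := hplt h (by omega)
              omega
            · rw [← h] at h4; omega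
          omega
        rw [h3, add_zero]
        congr 1
        have h8 : p (K + j) ∈ S ↔ R (K + j) := by
          rw [hmem _ hKj]
          constructor
          · rintro ⟨k, hk, h4, h5⟩
            have : k = K + j := by
              by_contra hne
              rcases lt_or_gt_of_ne hne with h | h
              · have := hplt h (by omega)
                omega
              · have := hplt h (by omega)
                omega
            rwa [this] at h5
          · intro h
            exact ⟨K + j, by omega, rfl, h⟩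
        simp only [h8]
      rw [h2, show K + (j + 1) = (K + j) + 1 by ring, Nat.count_succ]
      omega
  -- R is infinite
  have hcR : Tendsto (fun n : ℕ => (Nat.count R n : ℝ)) atTop atTop := by
    have h1 : Tendsto (fun n : ℕ => (Nat.count R n : ℝ) / n * n) atTop atTop :=
      Tendsto.pos_mul_atTop hμ0 hdens tendsto_natCast_atTop_atTop
    refine h1.congr' ?_
    filter_upwards [eventually_gt_atTop 0] with n hn
    have : (n : ℝ) ≠ 0 := by exact_mod_cast hn.ne'
    field_simp
  have hinf : S.Infinite := by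
    intro hfin
    obtain ⟨B, hB'⟩ : ∃ B : ℕ, ∀ n, Nat.count (· ∈ S) n ≤ B := by
      refine ⟨hfin.toFinset.card, fun n => ?_⟩
      rw [Nat.count_eq_card_filter_range]
      apply Finset.card_le_card
      intro i hi
      rw [Finset.mem_filter] at hi
      exact hfin.mem_toFinset.2 hi.2
    obtain ⟨N, hN⟩ := (hcR.eventually_gt_atTop ((B : ℝ) + Nat.count R K)).exists_forall_of_atTop
    have h1 := hN (K + N) (by omega)
    have h2 := hcount N
    have h3 := hB' (p (K + N))
    have h4 : (Nat.count R (K + N) : ℝ) ≤ B + Nat.count R K := by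
      exact_mod_cast (by omega : Nat.count R (K + N) ≤ B + Nat.count R K)
    linarith
  refine ⟨hinf, ?_⟩
  -- the index function
  have hidx : ∀ n : ℕ, Nat.count (· ∈ S) (p K) ≤ n → ∃ j : ℕ, Nat.nth (· ∈ S) n = p (K + j) ∧
      n + Nat.count R K = Nat.count (· ∈ S) (p K) + Nat.count R (K + j) := by
    intro n hn
    have h1 : Nat.nth (· ∈ S) n ∈ S := Nat.nth_mem_of_infinite hinf n
    have h2 : Nat.count (· ∈ S) (Nat.nth (· ∈ S) n) = n := Nat.count_nth_of_infinite hinf n
    have h3 : p K ≤ Nat.nth (· ∈ S) n := by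
      by_contra h
      push Not at h
      have h5 : Nat.count (· ∈ S) (Nat.nth (· ∈ S) n + 1) ≤ Nat.count (· ∈ S) (p K) :=
        Nat.count_monotone _ h
      rw [Nat.count_succ, h2, if_pos h1] at h5
      omega
    obtain ⟨k, hk, h4, h5⟩ := (hmem _ h3).1 h1
    obtain ⟨j, rfl⟩ : ∃ j, k = K + j := ⟨k - K, by omega⟩
    refine ⟨j, h4.symm, ?_⟩
    rw [← hcount j, h4, h2]
  choose! J hJ1 hJ2 using hidx
  have hJ : Tendsto (fun n => K + J n) atTop atTop := by
    rw [tendsto_atTop]
    intro B
    filter_upwards [eventually_ge_atTop (Nat.count (· ∈ S) (p K)),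
      eventually_ge_atTop (B + Nat.count (· ∈ S) (p K))] with n hn hn2
    have h1 := hJ2 n hn
    have h2 : Nat.count R (K + J n) ≤ K + J n := Nat.count_le _
    omega
  -- the limit
  have hf := P_log' ht
  have hg : Tendsto (fun k : ℕ => ((Nat.count R k : ℝ) + ((Nat.count (· ∈ S) (p K) : ℝ) -
      Nat.count R K + 1)) / k) atTop (𝓝 μ) := by
    have h1 := hdens.add (tendsto_const_div_atTop_nhds_zero_nat
      ((Nat.count (· ∈ S) (p K) : ℝ) - Nat.count R K + 1))
    rw [add_zero] at h1
    refine h1.congr (fun k => ?_)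
    exact (add_div _ _ _).symm
  have hfg : Tendsto (fun k : ℕ => (Real.log (P k) / k) / (((Nat.count R k : ℝ) +
      ((Nat.count (· ∈ S) (p K) : ℝ) - Nat.count R K + 1)) / k)) atTop (𝓝 (Real.log t / μ)) :=
    hf.div hg hμ0.ne'
  have hcomp := hfg.comp hJ
  have hexp := (Real.continuous_exp.tendsto _).comp hcomp
  have e1 : Real.exp (Real.log t / μ) = t ^ (1 / μ) := by
    rw [Real.rpow_def_of_pos t0]; congr 1; ring
  rw [e1] at hexp
  refine hexp.congr' ?_
  filter_upwards [eventually_ge_atTop (Nat.count (· ∈ S) (p K))] with n hn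
  have h1 := hJ1 n hn
  have h2 := hJ2 n hn
  set k := K + J n with hk
  have hk9 : 9 ≤ k := by omega
  have hPk : (0 : ℝ) < P k := by
    have := P_pos (k - 4)
    rw [show k - 4 + 4 = k by omega] at this
    exact_mod_cast (by omega : 0 < P k)
  have h3 : ((Nat.nth (· ∈ S) n : ℕ) : ℝ) = (P k : ℝ) := by
    rw [h1]
    exact_mod_cast hpP k
  rw [h3, Real.rpow_def_of_pos hPk]
  simp only [Function.comp_apply]
  congr 1
  have h4 : (n : ℝ) + Nat.count R K = Nat.count (· ∈ S) (p K) + Nat.count R k := by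
    exact_mod_cast h2
  have h5 : (Nat.count R k : ℝ) + ((Nat.count (· ∈ S) (p K) : ℝ) - Nat.count R K + 1) = n + 1 := by
    linarith
  rw [← hk, h5]
  have hk0 : (k : ℝ) ≠ 0 := by
    have : k ≠ 0 := by omega
    exact_mod_cast this
  have hn0 : (n : ℝ) + 1 ≠ 0 := by positivity
  field_simp

end

end Pool.Agent.R356.Gold
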